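import Pool.Agent.R157.Mink.Pair

set_option autoImplicit false

namespace Pool.Agent.R157.Mink

open MeasureTheory Metric Set
open scoped ENNReal ComplexConjugate

/-- the scalar product of the plane -/
def dot (a b : ℂ) : ℝ := a.re * b.re + a.im * b.im

/-- the determinant of two vectors of the plane -/
def crs (a b : ℂ) : ℝ := a.re * b.im - a.im * b.re

lemma dot_self (a : ℂ) : dot a a = ‖a‖ ^ 2 := by
  rw [← Complex.normSq_eq_norm_sq, Complex.normSq_apply, dot]

lemma dot_cont (a : ℂ) : Continuous (dot a) := by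
  unfold dot; fun_prop

lemma norm_sub_sq' (a b : ℂ) : ‖a - b‖ ^ 2 = ‖a‖ ^ 2 + ‖b‖ ^ 2 - 2 * dot a b := by
  rw [← dot_self, ← dot_self, ← dot_self]
  simp only [dot, Complex.sub_re, Complex.sub_im]; ring

lemma dot_le (a b : ℂ) : dot a b ≤ ‖a‖ * ‖b‖ := by
  have h1 : dot a b ^ 2 + crs a b ^ 2 = (‖a‖ * ‖b‖) ^ 2 := by
    rw [mul_pow, ← dot_self, ← dot_self]; simp only [dot, crs]; ring
  exact abs_le_of_sq_le_sq' (by nlinarith [sq_nonneg (crs a b)]) (by positivity) |>.2

/-- standard sector -/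
def V0 (ρ k : ℝ) : Set ℂ := {z | ‖z‖ < ρ ∧ k * ‖z‖ < z.re}

lemma isOpen_V0 (ρ k : ℝ) : IsOpen (V0 ρ k) := by
  apply IsOpen.inter
  · exact isOpen_lt continuous_norm continuous_const
  · exact isOpen_lt (continuous_const.mul continuous_norm) Complex.continuous_re

lemma lint_Ioo {ρ : ℝ} (hρ : 0 < ρ) :
    ∫⁻ r in Ioo (0 : ℝ) ρ, ENNReal.ofReal r = ENNReal.ofReal (ρ ^ 2 / 2) := by
  rw [← ofReal_integral_eq_lintegral_ofReal]
  · rw [← integral_Ioc_eq_integral_Ioo, ← intervalIntegral.integral_of_le hρ.le, integral_id]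
    congr 1; ring
  · exact (continuous_id.integrableOn_Icc (a := 0) (b := ρ)).mono_set Ioo_subset_Icc_self
  · filter_upwards [self_mem_ae_restrict measurableSet_Ioo] with r hr using hr.1.le

lemma vol_V0 {ρ k : ℝ} (hρ : 0 < ρ) (hk : 0 < k) :
    volume (V0 ρ k) = ENNReal.ofReal (ρ ^ 2 * Real.arccos k) := by
  rcases le_or_gt 1 k with h1 | h1
  · have : V0 ρ k = ∅ := by
      ext z
      simp only [V0, mem_ofPred_eq, mem_empty_iff_false, iff_false, not_and, not_lt]
      intro _
      have := Complex.re_le_norm z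
      nlinarith [norm_nonneg z]
    rw [this, Real.arccos_of_one_le h1]; simp
  have hα0 : 0 < Real.arccos k := Real.arccos_pos.2 h1
  have hα1 : Real.arccos k < Real.pi / 2 := Real.arccos_lt_pi_div_two.2 hk
  have hcos : Real.cos (Real.arccos k) = k := Real.cos_arccos (by linarith) h1.le
  set α := Real.arccos k with hα
  rw [← lintegral_indicator_one (isOpen_V0 ρ k).measurableSet, ← Complex.lintegral_comp_polarCoord_symm,
    polarCoord_target]
  have e1 : ∫⁻ p in Ioi (0 : ℝ) ×ˢ Ioo (-Real.pi) Real.pi,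
      ENNReal.ofReal p.1 • (V0 ρ k).indicator (1 : ℂ → ℝ≥0∞) (Complex.polarCoord.symm p)
      = ∫⁻ p in Ioi (0 : ℝ) ×ˢ Ioo (-Real.pi) Real.pi,
        (Ioo (0 : ℝ) ρ ×ˢ Ioo (-α) α).indicator (fun p => ENNReal.ofReal p.1) p := by
    apply setLIntegral_congr_fun (measurableSet_Ioi.prod measurableSet_Ioo)
    rintro ⟨r, θ⟩ ⟨hr, hθ⟩
    simp only [mem_Ioi, mem_Ioo] at hr hθ
    have hmem : Complex.polarCoord.symm (r, θ) ∈ V0 ρ k ↔ (r, θ) ∈ Ioo (0 : ℝ) ρ ×ˢ Ioo (-α) α := by
      simp only [V0, mem_ofPred_eq, Complex.norm_polarCoord_symm, abs_of_pos hr, mem_prod, mem_Ioo]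
      have hre : (Complex.polarCoord.symm (r, θ)).re = r * Real.cos θ := by
        simp [Complex.polarCoord_symm_apply, -Complex.ofReal_cos, -Complex.ofReal_sin]
      rw [hre]
      have h2 : k * r < r * Real.cos θ ↔ -α < θ ∧ θ < α := by
        rw [mul_comm k r, mul_lt_mul_iff_right₀ hr, ← abs_lt, ← Real.cos_abs θ, ← hcos]
        constructor
        · intro h
          by_contra hcon
          push Not at hcon
          have := Real.cos_le_cos_of_nonneg_of_le_pi hα0.le (abs_le.2 ⟨hθ.1.le, hθ.2.le⟩) hcon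
          linarith
        · intro h
          exact Real.cos_lt_cos_of_nonneg_of_le_pi (abs_nonneg _) (by linarith) h
      rw [h2]
      tauto
    by_cases h : (r, θ) ∈ Ioo (0 : ℝ) ρ ×ˢ Ioo (-α) α
    · simp only
      rw [indicator_of_mem h, indicator_of_mem (hmem.2 h)]; simp
    · simp only
      rw [indicator_of_notMem h, indicator_of_notMem (fun h' => h (hmem.1 h'))]; simp
  rw [e1, setLIntegral_indicator (measurableSet_Ioo.prod measurableSet_Ioo)]
  have e2 : (Ioo (0 : ℝ) ρ ×ˢ Ioo (-α) α) ∩ (Ioi (0 : ℝ) ×ˢ Ioo (-Real.pi) Real.pi)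
      = Ioo (0 : ℝ) ρ ×ˢ Ioo (-α) α := by
    apply inter_eq_left.2
    apply prod_mono
    · intro x hx; exact hx.1
    · intro x hx; exact ⟨by linarith [hx.1], by linarith [hx.2]⟩
  rw [e2, Measure.volume_eq_prod, ← Measure.prod_restrict]
  have e3 := lintegral_prod_mul (μ := volume.restrict (Ioo (0 : ℝ) ρ)) (ν := volume.restrict (Ioo (-α) α))
    (f := fun r : ℝ => ENNReal.ofReal r) (g := fun _ : ℝ => (1 : ℝ≥0∞))
    (ENNReal.measurable_ofReal.aemeasurable) aemeasurable_const
  simp only [mul_one] at e3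
  rw [e3, lint_Ioo hρ]
  simp only [lintegral_const, Measure.restrict_apply MeasurableSet.univ, univ_inter, Real.volume_Ioo, one_mul]
  rw [← ENNReal.ofReal_mul (by positivity)]
  congr 1; ring

/-- the open sector of the disk with centre `a` and radius `ρ` around the direction `w` -/
def Sec (a w : ℂ) (ρ κ : ℝ) : Set ℂ := {z | ‖z - a‖ < ρ ∧ κ * ‖z - a‖ < dot w (z - a)}

lemma isOpen_Sec (a w : ℂ) (ρ κ : ℝ) : IsOpen (Sec a w ρ κ) := by
  apply IsOpen.inter
  · exact isOpen_lt ((continuous_id.sub continuous_const).norm) continuous_const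
  · exact isOpen_lt (continuous_const.mul (continuous_id.sub continuous_const).norm)
      ((dot_cont w).comp (continuous_id.sub continuous_const))

lemma vol_Sec {a w : ℂ} {ρ κ : ℝ} (hw : w ≠ 0) (hρ : 0 < ρ) (hκ : 0 < κ) :
    volume (Sec a w ρ κ) = ENNReal.ofReal (ρ ^ 2 * Real.arccos (κ / ‖w‖)) := by
  have hD : 0 < ‖w‖ := norm_pos_iff.2 hw
  rw [← vol_V0 hρ (div_pos hκ hD)]
  have hu : ‖w / (‖w‖ : ℂ)‖ = 1 := by
    rw [norm_div, Complex.norm_real, norm_norm, div_self hD.ne']
  let u : Circle := ⟨w / (‖w‖ : ℂ), mem_sphere_zero_iff_norm.2 hu⟩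
  have hmp : MeasurePreserving (fun v : ℂ => a + rotation u v) volume volume :=
    (measurePreserving_add_left volume a).comp (rotation u).measurePreserving
  rw [← hmp.measure_preimage (isOpen_Sec a w ρ κ).measurableSet.nullMeasurableSet]
  congr 1
  ext v
  simp only [Sec, V0, mem_preimage, mem_ofPred_eq, add_sub_cancel_left, LinearIsometryEquiv.norm_map]
  have : dot w (rotation u v) = ‖w‖ * v.re := by
    rw [rotation_apply]
    change dot w (w / (‖w‖ : ℂ) * v) = _
    have h1 : w / (‖w‖ : ℂ) * v = ((1 / ‖w‖ : ℝ) : ℂ) * (w * v) := by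
      push_cast; field_simp
    rw [h1]
    simp only [dot, Complex.mul_re, Complex.mul_im, Complex.ofReal_re, Complex.ofReal_im, zero_mul,
      sub_zero, mul_zero, add_zero]
    have h2 : ‖w‖ ^ 2 = w.re * w.re + w.im * w.im := by
      rw [← Complex.normSq_eq_norm_sq, Complex.normSq_apply]
    field_simp
    rw [h2]; ring
  rw [this]
  constructor
  · rintro ⟨h1, h2⟩
    refine ⟨h1, ?_⟩
    rw [div_mul_eq_mul_div, div_lt_iff₀ hD]
    linarith
  · rintro ⟨h1, h2⟩
    refine ⟨h1, ?_⟩
    rw [div_mul_eq_mul_div, div_lt_iff₀ hD] at h2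
    linarith

/-- the standard triangle -/
lemma stdTri : convexHull ℝ {(0 : ℂ), 1, Complex.I} = {z : ℂ | 0 ≤ z.re ∧ 0 ≤ z.im ∧ z.re + z.im ≤ 1} := by
  apply Subset.antisymm
  · apply convexHull_min
    · rintro z (rfl | rfl | rfl) <;> simp
    · intro z hz w hw p q hp hq hpq
      simp only [mem_ofPred_eq, Complex.add_re, Complex.add_im, Complex.real_smul, Complex.re_ofReal_mul,
        Complex.im_ofReal_mul] at *
      refine ⟨by nlinarith [mul_nonneg hp hz.1, mul_nonneg hq hw.1],
        by nlinarith [mul_nonneg hp hz.2.1, mul_nonneg hq hw.2.1],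
        by nlinarith [mul_le_mul_of_nonneg_left hz.2.2 hp, mul_le_mul_of_nonneg_left hw.2.2 hq]⟩
  · rintro z ⟨h1, h2, h3⟩
    rw [mem_convexHull_iff]
    intro t ht hc
    have := hc.sum_mem (t := Finset.univ) (w := ![1 - z.re - z.im, z.re, z.im])
      (z := ![(0 : ℂ), 1, Complex.I]) (by
        intro i _; fin_cases i
        · simp; linarith
        · simpa using h1
        · simpa using h2) (by simp [Fin.sum_univ_three]; ring) (by
        intro i _; fin_cases i <;> exact ht (by simp))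
    simp only [Fin.sum_univ_three] at this
    convert this using 1
    apply Complex.ext <;> simp

lemma vol_stdTri : volume (convexHull ℝ {(0 : ℂ), 1, Complex.I}) = ENNReal.ofReal (1 / 2) := by
  rw [stdTri]
  have hmeas : MeasurableSet {p : ℝ × ℝ | 0 ≤ p.1 ∧ 0 ≤ p.2 ∧ p.1 + p.2 ≤ 1} := by
    apply IsClosed.measurableSet
    apply IsClosed.inter (isClosed_le continuous_const continuous_fst)
    exact IsClosed.inter (isClosed_le continuous_const continuous_snd)
      (isClosed_le (continuous_fst.add continuous_snd) continuous_const)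
  have h := Complex.volume_preserving_equiv_real_prod.measure_preimage hmeas.nullMeasurableSet
  have e : Complex.measurableEquivRealProd ⁻¹' {p : ℝ × ℝ | 0 ≤ p.1 ∧ 0 ≤ p.2 ∧ p.1 + p.2 ≤ 1}
      = {z : ℂ | 0 ≤ z.re ∧ 0 ≤ z.im ∧ z.re + z.im ≤ 1} := by
    ext z; simp [Complex.measurableEquivRealProd_apply]
  rw [e] at h
  rw [h, Measure.volume_eq_prod, Measure.prod_apply hmeas]
  have e2 : ∀ x : ℝ, volume (Prod.mk x ⁻¹' {p : ℝ × ℝ | 0 ≤ p.1 ∧ 0 ≤ p.2 ∧ p.1 + p.2 ≤ 1})
      = (Icc (0 : ℝ) 1).indicator (fun x => ENNReal.ofReal (1 - x)) x := by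
    intro x
    by_cases hx : x ∈ Icc (0 : ℝ) 1
    · rw [indicator_of_mem hx]
      have : Prod.mk x ⁻¹' {p : ℝ × ℝ | 0 ≤ p.1 ∧ 0 ≤ p.2 ∧ p.1 + p.2 ≤ 1} = Icc 0 (1 - x) := by
        ext y
        simp only [mem_preimage, mem_ofPred_eq, mem_Icc]
        constructor
        · rintro ⟨_, h2, h3⟩; exact ⟨h2, by linarith⟩
        · rintro ⟨h2, h3⟩; exact ⟨hx.1, h2, by linarith⟩
      rw [this, Real.volume_Icc]; simp
    · rw [indicator_of_notMem hx]
      have : Prod.mk x ⁻¹' {p : ℝ × ℝ | 0 ≤ p.1 ∧ 0 ≤ p.2 ∧ p.1 + p.2 ≤ 1} = ∅ := by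
        ext y
        simp only [mem_preimage, mem_ofPred_eq, mem_empty_iff_false, iff_false]
        rintro ⟨h1, h2, h3⟩
        exact hx ⟨h1, by linarith⟩
      rw [this]; simp
  simp_rw [e2]
  rw [lintegral_indicator measurableSet_Icc, ← ofReal_integral_eq_lintegral_ofReal]
  · rw [integral_Icc_eq_integral_Ioc, ← intervalIntegral.integral_of_le zero_le_one]
    congr 1
    rw [intervalIntegral.integral_sub (by simp) (by simp)]
    simp; norm_num
  · exact (Continuous.integrableOn_Icc (by fun_prop))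
  · filter_upwards [self_mem_ae_restrict measurableSet_Icc] with r hr
    simpa using hr.2

/-- area of a triangle -/
lemma vol_tri (a b c : ℂ) : volume (convexHull ℝ {a, b, c}) = ENNReal.ofReal (|crs (b - a) (c - a)| / 2) := by
  let L : ℂ →ₗ[ℝ] ℂ :=
    { toFun := fun z => z.re • (b - a) + z.im • (c - a)
      map_add' := by intro x y; simp only [Complex.add_re, Complex.add_im, add_smul]; abel
      map_smul' := by
        intro t x
        simp only [Complex.real_smul, Complex.re_ofReal_mul, Complex.im_ofReal_mul, RingHom.id_apply,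
          mul_add, Complex.ofReal_mul]
        ring }
  have hdet : LinearMap.det L = crs (b - a) (c - a) := by
    rw [← LinearMap.det_toMatrix Complex.basisOneI, Matrix.det_fin_two]
    simp only [LinearMap.toMatrix_apply, Complex.coe_basisOneI, Complex.coe_basisOneI_repr]
    simp [L, crs]
    ring
  have himg : convexHull ℝ {a, b, c} = (fun z => a + z) '' (L '' convexHull ℝ {(0 : ℂ), 1, Complex.I}) := by
    rw [L.image_convexHull]
    have h1 : (fun z => a + z) '' (convexHull ℝ (L '' {(0 : ℂ), 1, Complex.I}))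
        = convexHull ℝ ((fun z => a + z) '' (L '' {(0 : ℂ), 1, Complex.I})) := by
      have := (AffineEquiv.constVAdd ℝ ℂ a).toAffineMap.image_convexHull (L '' {(0 : ℂ), 1, Complex.I})
      simpa using this
    rw [h1]
    congr 1
    rw [image_image, image_insert_eq, image_insert_eq, image_singleton]
    simp [L]
  rw [himg, image_add_left, measure_preimage_add, Measure.addHaar_image_linearMap, vol_stdTri, hdet,
    ← ENNReal.ofReal_mul (abs_nonneg _)]
  congr 1; ring

end Pool.Agent.R157.Mink
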