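import Mathlib

set_option autoImplicit false

namespace Pool.Agent.R157.Mink

open MeasureTheory Metric Set

/-- the constant `c(μ)` -/
noncomputable def cMu (m : ℝ) : ℝ :=
  4 * Real.arccos ((1 + m) / 2) / ((1 + m) * Real.sqrt ((3 + m) * (1 - m)))

/-- a family of open disks with centres `x i` and radii `r i` that is a generalized Minkowski
arrangement of order `m` -/
structure IsArrangement {n : ℕ} (m : ℝ) (x : Fin n → ℂ) (r : Fin n → ℝ) : Prop where
  pos : ∀ i, 0 < r i
  sep : ∀ i j, i ≠ j → max (r i + m * r j) (r j + m * r i) ≤ dist (x i) (x j)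

variable {n : ℕ}

/-- the union of the disks -/
def U (x : Fin n → ℂ) (r : Fin n → ℝ) : Set ℂ := ⋃ i, ball (x i) (r i)

/-- the outer shell: all segments from a centre to the points of the boundary of the union on the
boundary circle of that disk -/
def outerShell (x : Fin n → ℂ) (r : Fin n → ℝ) : Set ℂ :=
  ⋃ i, ⋃ y ∈ frontier (U x r) ∩ sphere (x i) (r i), segment ℝ (x i) y

/-- `p` is a vertex of the boundary of the union at which the boundary circles of disks `i` and `j`
are consecutive: `p` is on the boundary of the union and on the boundary circles of disks `i` and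
`j`, the points `x i`, `x j`, `p` are not collinear, and the convex angular region with apex `p`
bounded by the rays from `p` through `x i` and `x j` has in its interior no centre of another disk
whose boundary circle passes through `p` -/
def Vertex (x : Fin n → ℂ) (r : Fin n → ℝ) (i j : Fin n) (p : ℂ) : Prop :=
  i ≠ j ∧ p ∈ frontier (U x r) ∧ p ∈ sphere (x i) (r i) ∧ p ∈ sphere (x j) (r j) ∧
  ¬ Collinear ℝ {x i, x j, p} ∧
  ∀ k, k ≠ i → k ≠ j → p ∈ sphere (x k) (r k) →
    x k ∉ interior {z : ℂ | ∃ s t : ℝ, 0 ≤ s ∧ 0 ≤ t ∧ z = p + s • (x i - p) + t • (x j - p)}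

/-- the inner shell: the union of the triangles `conv {p, x i, x j}` over all such vertices -/
def innerShell (x : Fin n → ℂ) (r : Fin n → ℝ) : Set ℂ :=
  ⋃ i, ⋃ j, ⋃ p ∈ {p | Vertex x r i j p}, convexHull ℝ {p, x i, x j}

/-- the intersection of disks `i` and `j`, a digon if it is nonempty -/
def digon (x : Fin n → ℂ) (r : Fin n → ℝ) (i j : Fin n) : Set ℂ := ball (x i) (r i) ∩ ball (x j) (r j)

/-- the core of disk `i` -/
def core (m : ℝ) (x : Fin n → ℂ) (r : Fin n → ℝ) (i : Fin n) : Set ℂ := ball (x i) (m * r i)

/-- the digon touches the cores of both disks -/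
def Thick (m : ℝ) (x : Fin n → ℂ) (r : Fin n → ℝ) (i j : Fin n) : Prop :=
  (closure (digon x r i j) ∩ closure (core m x r i)).Nonempty ∧
  (closure (digon x r i j) ∩ closure (core m x r j)).Nonempty

/-- the digon is contained in no third disk -/
def Free (x : Fin n → ℂ) (r : Fin n → ℝ) (i j : Fin n) : Prop :=
  ∀ k, k ≠ i → k ≠ j → ¬ digon x r i j ⊆ ball (x k) (r k)

end Pool.Agent.R157.Mink
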