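import Pool.Agent.R157.Mink.Area

set_option autoImplicit false

namespace Pool.Agent.R157.Mink

open MeasureTheory Metric Set
open scoped ENNReal ComplexConjugate

variable {n : ℕ} {m : ℝ} {x : Fin n → ℂ} {r : Fin n → ℝ}

lemma dot_comm (a b : ℂ) : dot a b = dot b a := by simp only [dot]; ring

lemma dot_smul (a b : ℂ) (t : ℝ) : dot a (t • b) = t * dot a b := by
  simp only [dot, Complex.real_smul, Complex.re_ofReal_mul, Complex.im_ofReal_mul]; ring

lemma dot_add (a b c : ℂ) : dot a (b + c) = dot a b + dot a c := by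
  simp only [dot, Complex.add_re, Complex.add_im]; ring

lemma crs_smul (a b : ℂ) (t : ℝ) : crs a (t • b) = t * crs a b := by
  simp only [crs, Complex.real_smul, Complex.re_ofReal_mul, Complex.im_ofReal_mul]; ring

lemma crs_add (a b c : ℂ) : crs a (b + c) = crs a b + crs a c := by
  simp only [crs, Complex.add_re, Complex.add_im]; ring

lemma dot_sq_add_crs_sq (a b : ℂ) : dot a b ^ 2 + crs a b ^ 2 = (‖a‖ * ‖b‖) ^ 2 := by
  rw [mul_pow, ← dot_self, ← dot_self]; simp only [dot, crs]; ring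

/-- two centres are seen under an angle more than `2π/3` from a common point -/
lemma angle_big {a b : ℝ} {v w : ℂ} (hm : Real.sqrt 3 - 1 < m) (ha : 0 < a) (hb : 0 < b)
    (hD : max (a + m * b) (b + m * a) ≤ ‖v - w‖) (hv : ‖v‖ ≤ a) (hw : ‖w‖ ≤ b) :
    dot v w < - (‖v‖ * ‖w‖) / 2 ∧ 0 < ‖v‖ ∧ 0 < ‖w‖ := by
  obtain ⟨h1, h2⟩ := mu_facts hm
  have hD1 := (max_le_iff.1 hD).1
  have hD2 := (max_le_iff.1 hD).2
  have hma : 0 < m * a := by positivity
  have hmb : 0 < m * b := by positivity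
  have htri := norm_sub_le v w
  refine ⟨?_, by linarith [norm_nonneg v], by linarith [norm_nonneg w]⟩
  by_contra hcon
  push Not at hcon
  have h3 := norm_sub_sq' v w
  have hvn := norm_nonneg v
  have hwn := norm_nonneg w
  have hv2 : ‖v‖ ^ 2 ≤ a ^ 2 := by gcongr
  have hw2 : ‖w‖ ^ 2 ≤ b ^ 2 := by gcongr
  have hvw : ‖v‖ * ‖w‖ ≤ a * b := by gcongr
  have h4 : ‖v - w‖ ^ 2 ≤ a ^ 2 + b ^ 2 + a * b := by linarith
  rcases le_total a b with h | h
  · have : (b + m * a) ^ 2 ≤ ‖v - w‖ ^ 2 := by gcongr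
    nlinarith [mul_pos ha hb, mul_pos ha ha, mul_nonneg ha.le (sub_nonneg.2 h)]
  · have : (a + m * b) ^ 2 ≤ ‖v - w‖ ^ 2 := by gcongr
    nlinarith [mul_pos ha hb, mul_pos hb hb, mul_nonneg hb.le (sub_nonneg.2 h)]

/-- no point lies in three closed disks -/
lemma no_triple (hm : Real.sqrt 3 - 1 < m) (h : IsArrangement m x r) {i j k : Fin n}
    (hij : i ≠ j) (hik : i ≠ k) (hjk : j ≠ k) {p : ℂ} (hi : ‖p - x i‖ ≤ r i) (hj : ‖p - x j‖ ≤ r j)
    (hk : ‖p - x k‖ ≤ r k) : False := by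
  have key : ∀ a b : Fin n, a ≠ b → ‖p - x a‖ ≤ r a → ‖p - x b‖ ≤ r b →
      dot (p - x a) (p - x b) < - (‖p - x a‖ * ‖p - x b‖) / 2 ∧ 0 < ‖p - x a‖ ∧ 0 < ‖p - x b‖ := by
    intro a b hab ha hb
    apply angle_big hm (h.pos a) (h.pos b) _ ha hb
    have := h.sep a b hab
    rw [dist_comm, dist_eq_norm] at this
    have e : (p - x a) - (p - x b) = x b - x a := by ring
    rwa [e]
  obtain ⟨a1, b1, c1⟩ := key i j hij hi hj
  obtain ⟨a2, b2, c2⟩ := key i k hik hi hk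
  obtain ⟨a3, b3, c3⟩ := key j k hjk hj hk
  set u := p - x i
  set v := p - x j
  set w := p - x k
  have e1 : 0 ≤ dot ((‖v‖ * ‖w‖) • u + ((‖u‖ * ‖w‖) • v + (‖u‖ * ‖v‖) • w))
      ((‖v‖ * ‖w‖) • u + ((‖u‖ * ‖w‖) • v + (‖u‖ * ‖v‖) • w)) := by
    rw [dot_self]; positivity
  have e2 : dot ((‖v‖ * ‖w‖) • u + ((‖u‖ * ‖w‖) • v + (‖u‖ * ‖v‖) • w))
      ((‖v‖ * ‖w‖) • u + ((‖u‖ * ‖w‖) • v + (‖u‖ * ‖v‖) • w))
      = (‖v‖ * ‖w‖) ^ 2 * dot u u + (‖u‖ * ‖w‖) ^ 2 * dot v v + (‖u‖ * ‖v‖) ^ 2 * dot w w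
        + 2 * (‖u‖ * ‖v‖ * ‖w‖ ^ 2) * dot u v + 2 * (‖u‖ * ‖w‖ * ‖v‖ ^ 2) * dot u w
        + 2 * (‖v‖ * ‖w‖ * ‖u‖ ^ 2) * dot v w := by
    simp only [dot, Complex.add_re, Complex.add_im, Complex.real_smul, Complex.re_ofReal_mul,
      Complex.im_ofReal_mul]
    ring
  rw [e2, dot_self, dot_self, dot_self] at e1
  have f1 : 2 * (‖u‖ * ‖v‖ * ‖w‖ ^ 2) * dot u v < 2 * (‖u‖ * ‖v‖ * ‖w‖ ^ 2) * (- (‖u‖ * ‖v‖) / 2) :=
    mul_lt_mul_of_pos_left a1 (by positivity)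
  have f2 : 2 * (‖u‖ * ‖w‖ * ‖v‖ ^ 2) * dot u w < 2 * (‖u‖ * ‖w‖ * ‖v‖ ^ 2) * (- (‖u‖ * ‖w‖) / 2) :=
    mul_lt_mul_of_pos_left a2 (by positivity)
  have f3 : 2 * (‖v‖ * ‖w‖ * ‖u‖ ^ 2) * dot v w < 2 * (‖v‖ * ‖w‖ * ‖u‖ ^ 2) * (- (‖v‖ * ‖w‖) / 2) :=
    mul_lt_mul_of_pos_left a3 (by positivity)
  nlinarith

/-- the number `κ` of an ordered pair -/
noncomputable def kap (a b D : ℝ) : ℝ := (D ^ 2 + a ^ 2 - b ^ 2) / (2 * a)

/-- the sector of disk `i` cut out by disk `j` -/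
def S (x : Fin n → ℂ) (r : Fin n → ℝ) (i j : Fin n) : Set ℂ :=
  Sec (x i) (x j - x i) (r i) (kap (r i) (r j) ‖x j - x i‖)

lemma ang_eq (a b D : ℝ) : ang a b D = Real.arccos (kap a b D / D) := by
  rw [ang, kap, div_div]

lemma sep' (h : IsArrangement m x r) {i j : Fin n} (hij : i ≠ j) :
    max (r i + m * r j) (r j + m * r i) ≤ ‖x j - x i‖ := by
  have := h.sep i j hij
  rwa [dist_comm, dist_eq_norm] at this

lemma kap_pos (hm : Real.sqrt 3 - 1 < m) (h : IsArrangement m x r) {i j : Fin n} (hij : i ≠ j) :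
    0 < kap (r i) (r j) ‖x j - x i‖ := by
  have h1 := D_sq hm (h.pos i) (h.pos j) (sep' h hij)
  have := h.pos i
  unfold kap
  apply div_pos _ (by positivity)
  nlinarith [h.pos j]

/-- `y` is the projection of `z` from `x i` on the circle; it lies in disk `j` iff `z` is in the
cone -/
lemma ray_iff {a b : ℝ} {w q : ℂ} (ha : 0 < a) (hb : 0 < b) (hq : q ≠ 0) :
    ‖(a / ‖q‖) • q - w‖ < b ↔ kap a b ‖w‖ * ‖q‖ < dot w q := by
  have hN : 0 < ‖q‖ := norm_pos_iff.2 hq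
  have h1 : ‖(a / ‖q‖) • q - w‖ ^ 2 = a ^ 2 + ‖w‖ ^ 2 - 2 * (a / ‖q‖ * dot w q) := by
    rw [norm_sub_sq', norm_smul, Real.norm_eq_abs, abs_of_pos (div_pos ha hN), div_mul_cancel₀ _ hN.ne',
      dot_comm, dot_smul]
  have h2 : ‖(a / ‖q‖) • q - w‖ < b ↔ ‖(a / ‖q‖) • q - w‖ ^ 2 < b ^ 2 :=
    (pow_lt_pow_iff_left₀ (norm_nonneg _) hb.le (by norm_num)).symm
  rw [h2, h1, kap]
  have h3 : (‖w‖ ^ 2 + a ^ 2 - b ^ 2) / (2 * a) * ‖q‖ < dot w q ↔
      (‖w‖ ^ 2 + a ^ 2 - b ^ 2) * ‖q‖ < dot w q * (2 * a) := by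
    rw [div_mul_eq_mul_div, div_lt_iff₀ (by positivity)]
  rw [h3]
  have h4 : a / ‖q‖ * dot w q = (a * dot w q) / ‖q‖ := by ring
  rw [h4]
  constructor
  · intro h5
    have : ‖w‖ ^ 2 + a ^ 2 - b ^ 2 < 2 * ((a * dot w q) / ‖q‖) := by linarith
    have h6 := mul_lt_mul_of_pos_right this hN
    have h7 : 2 * ((a * dot w q) / ‖q‖) * ‖q‖ = dot w q * (2 * a) := by field_simp
    linarith
  · intro h5
    have : ‖w‖ ^ 2 + a ^ 2 - b ^ 2 < 2 * ((a * dot w q) / ‖q‖) := by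
      have h7 : 2 * ((a * dot w q) / ‖q‖) = dot w q * (2 * a) / ‖q‖ := by field_simp
      rw [h7, lt_div_iff₀ hN]; exact h5
    linarith

/-- the lens is in the sector -/
lemma lens_sub (hm : Real.sqrt 3 - 1 < m) (h : IsArrangement m x r) {i j : Fin n} (hij : i ≠ j) {z : ℂ}
    (hi : ‖z - x i‖ < r i) (hj : ‖z - x j‖ < r j) : z ∈ S x r i j := by
  refine ⟨hi, ?_⟩
  have h1 := D_sq hm (h.pos i) (h.pos j) (sep' h hij)
  have e : z - x j = (z - x i) - (x j - x i) := by ring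
  rw [e] at hj
  have h2 := norm_sub_sq' (z - x i) (x j - x i)
  have h3 : ‖(z - x i) - (x j - x i)‖ ^ 2 < r j ^ 2 := by
    have := norm_nonneg ((z - x i) - (x j - x i))
    gcongr
  have hN := norm_nonneg (z - x i)
  rw [dot_comm] at h2
  set N := ‖z - x i‖
  set D := ‖x j - x i‖
  have hr := h.pos i
  rw [kap, div_mul_eq_mul_div, div_lt_iff₀ (by positivity)]
  have h4 : 0 ≤ (r i - N) * (D ^ 2 - r j ^ 2 - r i * N) := by
    apply mul_nonneg (by linarith)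
    nlinarith
  have h5 : N ^ 2 + D ^ 2 - r j ^ 2 < 2 * dot (x j - x i) (z - x i) := by linarith
  nlinarith [mul_lt_mul_of_pos_left h5 hr]

lemma S_disj (hm : Real.sqrt 3 - 1 < m) (h : IsArrangement m x r) {i j k : Fin n}
    (hij : i ≠ j) (hik : i ≠ k) (hjk : j ≠ k) {z : ℂ} (h1 : z ∈ S x r i j) (h2 : z ∈ S x r i k) : False := by
  have hz : z - x i ≠ 0 := by
    intro h0
    have := h1.2
    rw [h0] at this
    simp [dot] at this
  have e1 := (ray_iff (h.pos i) (h.pos j) hz).2 h1.2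
  have e2 := (ray_iff (h.pos i) (h.pos k) hz).2 h2.2
  have hN : 0 < ‖z - x i‖ := norm_pos_iff.2 hz
  have hr := h.pos i
  apply no_triple hm h hij hik hjk (p := x i + (r i / ‖z - x i‖) • (z - x i))
  · rw [add_sub_cancel_left, norm_smul, Real.norm_eq_abs, abs_of_pos (div_pos hr hN), div_mul_cancel₀ _ hN.ne']
  · have e : x i + (r i / ‖z - x i‖) • (z - x i) - x j = (r i / ‖z - x i‖) • (z - x i) - (x j - x i) := by ring
    rw [e]; exact e1.le
  · have e : x i + (r i / ‖z - x i‖) • (z - x i) - x k = (r i / ‖z - x i‖) • (z - x i) - (x k - x i) := by ring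
    rw [e]; exact e2.le

/-- sectors of different unordered pairs are disjoint -/
lemma S_disj' (hm : Real.sqrt 3 - 1 < m) (h : IsArrangement m x r) {i j k l : Fin n}
    (hij : i ≠ j) (hkl : k ≠ l) (hne : ¬ (i = k ∧ j = l)) (hne' : ¬ (i = l ∧ j = k)) {z : ℂ}
    (h1 : z ∈ S x r i j) (h2 : z ∈ S x r k l) : False := by
  by_cases hik : i = k
  · subst hik
    exact S_disj hm h hij hkl (fun e => hne ⟨rfl, e⟩) h1 h2
  · by_cases hjk : j = k
    · subst hjk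
      have h3 : z ∈ S x r j i := lens_sub hm h hij.symm h2.1 h1.1
      exact S_disj hm h hij.symm hkl (fun e => hne' ⟨e, rfl⟩) h3 h2
    · have h3 : z ∈ S x r i k := lens_sub hm h hik h1.1 h2.1
      exact S_disj hm h hij hik hjk h1 h3

/-- the boundary of a cone is null -/
lemma null_cone {a w : ℂ} {κ : ℝ} (hκ : 0 ≤ κ) (hw : κ < ‖w‖) :
    volume {z : ℂ | dot w (z - a) = κ * ‖z - a‖} = 0 := by
  have hconv : Convex ℝ {z : ℂ | κ * ‖z - a‖ ≤ dot w (z - a)} := by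
    intro u hu v hv p q hp hq hpq
    simp only [mem_ofPred_eq] at *
    have e : p • u + q • v - a = p • (u - a) + q • (v - a) := by
      have : a = (p + q) • a := by rw [hpq, one_smul]
      nth_rewrite 1 [this]
      simp only [Complex.real_smul, Complex.ofReal_add]; ring
    rw [e, dot_add, dot_smul, dot_smul]
    have h1 : ‖p • (u - a) + q • (v - a)‖ ≤ p * ‖u - a‖ + q * ‖v - a‖ := by
      refine (norm_add_le _ _).trans ?_
      rw [norm_smul, norm_smul, Real.norm_eq_abs, Real.norm_eq_abs, abs_of_nonneg hp, abs_of_nonneg hq]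
    nlinarith [mul_le_mul_of_nonneg_left h1 hκ, mul_le_mul_of_nonneg_left hu hp,
      mul_le_mul_of_nonneg_left hv hq]
  have hcl : IsClosed {z : ℂ | κ * ‖z - a‖ ≤ dot w (z - a)} :=
    isClosed_le (continuous_const.mul (continuous_id.sub continuous_const).norm)
      ((dot_cont w).comp (continuous_id.sub continuous_const))
  refine measure_mono_null ?_ (hconv.addHaar_frontier volume)
  intro z hz
  simp only [mem_ofPred_eq] at hz
  rw [hcl.frontier_eq]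
  refine ⟨by simp only [mem_ofPred_eq]; exact hz.ge, fun hint => ?_⟩
  rw [mem_interior_iff_mem_nhds, Metric.mem_nhds_iff] at hint
  obtain ⟨ε, hε, hsub⟩ := hint
  have hw0 : 0 < ‖w‖ := lt_of_le_of_lt hκ hw
  set t := ε / (2 * ‖w‖) with ht
  have ht0 : 0 < t := by positivity
  have hmem : z + (-t) • w ∈ ball z ε := by
    rw [mem_ball, dist_eq_norm, add_sub_cancel_left, norm_smul, Real.norm_eq_abs, abs_neg, abs_of_pos ht0, ht]
    have : ε / (2 * ‖w‖) * ‖w‖ = ε / 2 := by field_simp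
    rw [this]; linarith
  have h1 := hsub hmem
  simp only [mem_ofPred_eq] at h1
  have e : z + (-t) • w - a = (z - a) + (-t) • w := by ring
  rw [e, dot_add, dot_smul, dot_self, hz] at h1
  have h2 : ‖z - a‖ - t * ‖w‖ ≤ ‖(z - a) + (-t) • w‖ := by
    have h3 := norm_sub_norm_le (z - a) (t • w)
    have e2 : z - a - t • w = (z - a) + (-t) • w := by rw [neg_smul]; ring
    rw [e2, norm_smul, Real.norm_eq_abs, abs_of_pos ht0] at h3
    linarith
  have h4 := mul_le_mul_of_nonneg_left h2 hκ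
  have h5 : 0 < t * ‖w‖ * (‖w‖ - κ) := by
    apply mul_pos (by positivity); linarith
  nlinarith

end Pool.Agent.R157.Mink
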