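import Pool.Agent.R157.Mink.Outer

set_option autoImplicit false

namespace Pool.Agent.R157.Mink

open MeasureTheory Metric Set
open scoped ENNReal ComplexConjugate

variable {n : ℕ} {m : ℝ} {x : Fin n → ℂ} {r : Fin n → ℝ}

/-- half the distance of the two vertices of a pair -/
noncomputable def hh (x : Fin n → ℂ) (r : Fin n → ℝ) (i j : Fin n) : ℝ :=
  r i * Real.sin (ang (r i) (r j) ‖x j - x i‖)

/-- the vertex on the left side of the direction from `x i` to `x j` -/
noncomputable def P (x : Fin n → ℂ) (r : Fin n → ℝ) (i j : Fin n) : ℂ :=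
  x i + (x j - x i) * (((kap (r i) (r j) ‖x j - x i‖ * r i / ‖x j - x i‖ ^ 2 : ℝ) : ℂ)
    + ((hh x r i j / ‖x j - x i‖ : ℝ) : ℂ) * Complex.I)

/-- the triangle of an ordered pair -/
noncomputable def Tri (x : Fin n → ℂ) (r : Fin n → ℝ) (i j : Fin n) : Set ℂ :=
  convexHull ℝ {P x r i j, x i, x j}

/-- a vector is determined by the scalar product and the determinant with a nonzero vector -/
lemma eq_of_dot_crs {w u v : ℂ} (hw : w ≠ 0) (h1 : dot w u = dot w v) (h2 : crs w u = crs w v) : u = v := by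
  have hD : 0 < w.re ^ 2 + w.im ^ 2 := by
    have := norm_pos_iff.2 hw
    have h3 : ‖w‖ ^ 2 = w.re * w.re + w.im * w.im := by
      rw [← Complex.normSq_eq_norm_sq, Complex.normSq_apply]
    nlinarith
  simp only [dot, crs] at h1 h2
  apply Complex.ext
  · have : (w.re ^ 2 + w.im ^ 2) * u.re = (w.re ^ 2 + w.im ^ 2) * v.re := by
      linear_combination w.re * h1 - w.im * h2
    exact mul_left_cancel₀ hD.ne' this
  · have : (w.re ^ 2 + w.im ^ 2) * u.im = (w.re ^ 2 + w.im ^ 2) * v.im := by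
      linear_combination w.im * h1 + w.re * h2
    exact mul_left_cancel₀ hD.ne' this

lemma w_ne (hm : Real.sqrt 3 - 1 < m) (h : IsArrangement m x r) {i j : Fin n} (hij : i ≠ j) :
    x j - x i ≠ 0 := norm_pos_iff.1 (D_pos hm (h.pos i) (h.pos j) (sep' h hij))

lemma P_dot (hm : Real.sqrt 3 - 1 < m) (h : IsArrangement m x r) {i j : Fin n} (hij : i ≠ j) :
    dot (x j - x i) (P x r i j - x i) = kap (r i) (r j) ‖x j - x i‖ * r i := by
  have hw := w_ne hm h hij
  have hD : 0 < ‖x j - x i‖ := norm_pos_iff.2 hw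
  have e := dot_self (x j - x i)
  rw [P, add_sub_cancel_left]
  set w := x j - x i
  have : dot w (w * (((kap (r i) (r j) ‖w‖ * r i / ‖w‖ ^ 2 : ℝ) : ℂ)
    + ((hh x r i j / ‖w‖ : ℝ) : ℂ) * Complex.I)) = (kap (r i) (r j) ‖w‖ * r i / ‖w‖ ^ 2) * dot w w := by
    simp only [dot, Complex.mul_re, Complex.mul_im, Complex.add_re, Complex.add_im, Complex.ofReal_re,
      Complex.ofReal_im, Complex.I_re, Complex.I_im]
    ring
  rw [this, e]
  field_simp

lemma P_crs (hm : Real.sqrt 3 - 1 < m) (h : IsArrangement m x r) {i j : Fin n} (hij : i ≠ j) :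
    crs (x j - x i) (P x r i j - x i) = ‖x j - x i‖ * hh x r i j := by
  have hw := w_ne hm h hij
  have hD : 0 < ‖x j - x i‖ := norm_pos_iff.2 hw
  have e := dot_self (x j - x i)
  rw [P, add_sub_cancel_left]
  set w := x j - x i
  have : crs w (w * (((kap (r i) (r j) ‖w‖ * r i / ‖w‖ ^ 2 : ℝ) : ℂ)
    + ((hh x r i j / ‖w‖ : ℝ) : ℂ) * Complex.I)) = (hh x r i j / ‖w‖) * dot w w := by
    simp only [dot, crs, Complex.mul_re, Complex.mul_im, Complex.add_re, Complex.add_im, Complex.ofReal_re,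
      Complex.ofReal_im, Complex.I_re, Complex.I_im]
    ring
  rw [this, e]
  field_simp

/-- the crossing condition -/
def Cross (x : Fin n → ℂ) (r : Fin n → ℝ) (i j : Fin n) : Prop := i ≠ j ∧ ‖x j - x i‖ < r i + r j

lemma kap_sum {a b D : ℝ} (ha : 0 < a) (hb : 0 < b) : kap a b D * a + kap b a D * b = D ^ 2 := by
  unfold kap; field_simp; ring

lemma kap_lt {a b D : ℝ} (ha : 0 < a) (hb : 0 < b) (hD : 0 < D) (hDb : b < D) (hDa : a < D) (hc : D < a + b) :
    kap a b D < D := by
  unfold kap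
  rw [div_lt_iff₀ (by positivity)]
  nlinarith [mul_pos (sub_pos.2 hDa) (sub_pos.2 hDb), mul_pos (sub_pos.2 hDa) (show 0 < a + b - D by linarith)]

lemma cross_lt (hm : Real.sqrt 3 - 1 < m) (h : IsArrangement m x r) {i j : Fin n} (hc : Cross x r i j) :
    r i < ‖x j - x i‖ ∧ r j < ‖x j - x i‖ := by
  have h1 := sep' h hc.1
  obtain ⟨h2, h3⟩ := mu_facts hm
  have hi := h.pos i
  have hj := h.pos j
  have := (max_le_iff.1 h1).1
  have := (max_le_iff.1 h1).2
  have : 0 < m * r i := by positivity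
  have : 0 < m * r j := by positivity
  constructor <;> linarith

lemma hh_sq (hm : Real.sqrt 3 - 1 < m) (h : IsArrangement m x r) {i j : Fin n} (hc : Cross x r i j) :
    (‖x j - x i‖ * hh x r i j) ^ 2 = (‖x j - x i‖ * r i) ^ 2 - (kap (r i) (r j) ‖x j - x i‖ * r i) ^ 2 := by
  have h1 := ang_sin_sq hm (h.pos i) (h.pos j) (sep' h hc.1) hc.2
  have hD := norm_pos_iff.2 (w_ne hm h hc.1)
  have hr := h.pos i
  rw [mul_pow, hh, h1, kap]
  field_simp
  ring

lemma hh_pos (hm : Real.sqrt 3 - 1 < m) (h : IsArrangement m x r) {i j : Fin n} (hc : Cross x r i j) :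
    0 < hh x r i j := by
  obtain ⟨p1, p2, _⟩ := ang_facts hm (h.pos i) (h.pos j) (sep' h hc.1) hc.2
  exact mul_pos (h.pos i) (Real.sin_pos_of_pos_of_lt_pi p1 (by linarith [Real.pi_pos]))

lemma P_norm (hm : Real.sqrt 3 - 1 < m) (h : IsArrangement m x r) {i j : Fin n} (hc : Cross x r i j) :
    ‖P x r i j - x i‖ = r i := by
  have h1 := dot_sq_add_crs_sq (x j - x i) (P x r i j - x i)
  rw [P_dot hm h hc.1, P_crs hm h hc.1, hh_sq hm h hc] at h1
  have hD := norm_pos_iff.2 (w_ne hm h hc.1)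
  have h2 : (‖x j - x i‖ * ‖P x r i j - x i‖) ^ 2 = (‖x j - x i‖ * r i) ^ 2 := by linarith
  have h3 := (pow_left_inj₀ (by positivity) (mul_nonneg hD.le (h.pos i).le) (by norm_num)).1 h2
  exact mul_left_cancel₀ hD.ne' h3

lemma P_norm' (hm : Real.sqrt 3 - 1 < m) (h : IsArrangement m x r) {i j : Fin n} (hc : Cross x r i j) :
    ‖P x r i j - x j‖ = r j := by
  have e : P x r i j - x j = (P x r i j - x i) - (x j - x i) := by ring
  have h1 := norm_sub_sq' (P x r i j - x i) (x j - x i)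
  rw [← e, P_norm hm h hc, dot_comm, P_dot hm h hc.1] at h1
  have hr := h.pos i
  have h2 : 2 * (kap (r i) (r j) ‖x j - x i‖ * r i) = ‖x j - x i‖ ^ 2 + r i ^ 2 - r j ^ 2 := by
    unfold kap; field_simp
  have h3 : ‖P x r i j - x j‖ ^ 2 = r j ^ 2 := by linarith
  exact (pow_left_inj₀ (norm_nonneg _) (h.pos j).le (by norm_num)).1 h3

lemma crs_eq_zero_of_collinear {a b c : ℂ} (h : Collinear ℝ {a, b, c}) : crs (b - a) (c - a) = 0 := by
  rw [collinear_iff_of_mem (p₀ := a) (by simp)] at h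
  obtain ⟨v, hv⟩ := h
  obtain ⟨s, hs⟩ := hv b (by simp)
  obtain ⟨t, ht⟩ := hv c (by simp)
  rw [hs, ht]
  simp only [vadd_eq_add, add_sub_cancel_right, crs_smul]
  simp only [crs, Complex.real_smul, Complex.re_ofReal_mul, Complex.im_ofReal_mul]
  ring

lemma collinear_of_crs_eq_zero {a b c : ℂ} (hab : b - a ≠ 0) (h : crs (b - a) (c - a) = 0) :
    Collinear ℝ {a, b, c} := by
  rw [collinear_iff_of_mem (p₀ := a) (by simp)]
  have hD : 0 < ‖b - a‖ := norm_pos_iff.2 hab
  refine ⟨b - a, ?_⟩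
  rintro p (rfl | rfl | rfl)
  · exact ⟨0, by simp⟩
  · exact ⟨1, by simp⟩
  · refine ⟨dot (b - a) (p - a) / ‖b - a‖ ^ 2, ?_⟩
    rw [vadd_eq_add, ← sub_eq_iff_eq_add]
    apply eq_of_dot_crs hab
    · rw [dot_smul, dot_self]; field_simp
    · rw [h, crs_smul]
      have : crs (b - a) (b - a) = 0 := by simp only [crs]; ring
      rw [this, mul_zero]

/-- the left vertex of a crossing pair is a vertex -/
lemma vertex_P (hm : Real.sqrt 3 - 1 < m) (h : IsArrangement m x r) {i j : Fin n} (hc : Cross x r i j) :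
    Vertex x r i j (P x r i j) := by
  have h1 := P_norm hm h hc
  have h2 := P_norm' hm h hc
  have h3 : ∀ k, k ≠ i → k ≠ j → ¬ ‖P x r i j - x k‖ ≤ r k := fun k hki hkj hk =>
    no_triple hm h hc.1 hki.symm hkj.symm h1.le h2.le hk
  refine ⟨hc.1, ?_, by rw [mem_sphere, dist_eq_norm]; exact h1, by rw [mem_sphere, dist_eq_norm]; exact h2, ?_, ?_⟩
  · apply mem_frontier_U h (i := i)
    · rw [dist_eq_norm]; exact h1
    · intro k hk
      rw [mem_ball, dist_eq_norm] at hk
      by_cases hki : k = i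
      · subst hki; linarith
      · by_cases hkj : k = j
        · subst hkj; linarith
        · exact h3 k hki hkj hk.le
  · intro hcol
    have h4 := crs_eq_zero_of_collinear hcol
    rw [P_crs hm h hc.1] at h4
    have := mul_pos (norm_pos_iff.2 (w_ne hm h hc.1)) (hh_pos hm h hc)
    linarith
  · intro k hki hkj hk
    rw [mem_sphere, dist_eq_norm] at hk
    exact absurd hk.le (h3 k hki hkj)

/-- a vertex belongs to a crossing pair and is one of its two points -/
lemma vertex_cases (hm : Real.sqrt 3 - 1 < m) (h : IsArrangement m x r) {i j : Fin n} {p : ℂ}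
    (hv : Vertex x r i j p) : Cross x r i j ∧ (p = P x r i j ∨ p = P x r j i) := by
  obtain ⟨hij, _, hpi, hpj, hcol, _⟩ := hv
  rw [mem_sphere, dist_eq_norm] at hpi hpj
  have hw := w_ne hm h hij
  have hD := norm_pos_iff.2 hw
  have hri := h.pos i
  have hrj := h.pos j
  have hne : crs (x j - x i) (p - x i) ≠ 0 := fun h0 => hcol (collinear_of_crs_eq_zero hw h0)
  have hdot : dot (x j - x i) (p - x i) = kap (r i) (r j) ‖x j - x i‖ * r i := by
    have e : p - x j = (p - x i) - (x j - x i) := by ring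
    have h1 := norm_sub_sq' (p - x i) (x j - x i)
    rw [← e, hpi, hpj, dot_comm] at h1
    have h2 : 2 * (kap (r i) (r j) ‖x j - x i‖ * r i) = ‖x j - x i‖ ^ 2 + r i ^ 2 - r j ^ 2 := by
      unfold kap; field_simp
    linarith
  have hsq := dot_sq_add_crs_sq (x j - x i) (p - x i)
  rw [hdot, hpi] at hsq
  have hpos : 0 < crs (x j - x i) (p - x i) ^ 2 := by positivity
  have hcross : Cross x r i j := by
    refine ⟨hij, ?_⟩
    by_contra hcon
    push Not at hcon
    have h3 : ‖x j - x i‖ ≤ kap (r i) (r j) ‖x j - x i‖ := by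
      unfold kap
      rw [le_div_iff₀ (by positivity)]
      nlinarith
    have h4 : (‖x j - x i‖ * r i) ^ 2 ≤ (kap (r i) (r j) ‖x j - x i‖ * r i) ^ 2 := by gcongr
    linarith
  refine ⟨hcross, ?_⟩
  have h5 := hh_sq hm h hcross
  have h6 : crs (x j - x i) (p - x i) ^ 2 = (‖x j - x i‖ * hh x r i j) ^ 2 := by linarith
  rcases sq_eq_sq_iff_eq_or_eq_neg.1 h6 with h7 | h7
  · left
    have := eq_of_dot_crs hw (u := p - x i) (v := P x r i j - x i) (by rw [hdot, P_dot hm h hij])
      (by rw [h7, P_crs hm h hij])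
    exact sub_left_injective this
  · right
    have hw' : x i - x j ≠ 0 := w_ne hm h hij.symm
    have hnorm : ‖x i - x j‖ = ‖x j - x i‖ := norm_sub_rev _ _
    have hcross' : Cross x r j i := ⟨hij.symm, by rw [hnorm]; linarith [hcross.2]⟩
    have := eq_of_dot_crs hw' (u := p - x j) (v := P x r j i - x j) ?_ ?_
    · exact sub_left_injective this
    · rw [P_dot hm h hij.symm, hnorm]
      have e : dot (x i - x j) (p - x j) = ‖x j - x i‖ ^ 2 - dot (x j - x i) (p - x i) := by
        rw [← dot_self]; simp only [dot, Complex.sub_re, Complex.sub_im]; ring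
      rw [e, hdot]
      have := kap_sum (D := ‖x j - x i‖) hri hrj
      linarith
    · rw [P_crs hm h hij.symm, hnorm]
      have e : crs (x i - x j) (p - x j) = - crs (x j - x i) (p - x i) := by
        simp only [crs, Complex.sub_re, Complex.sub_im]; ring
      rw [e, h7, neg_neg]
      congr 1
      have := ang_sines hm hri hrj (sep' h hij) hcross.2
      rw [hh, hh, hnorm, this]

lemma Cross.symm {i j : Fin n} (hc : Cross x r i j) : Cross x r j i :=
  ⟨hc.1.symm, by rw [norm_sub_rev, add_comm]; exact hc.2⟩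

/-- the inner shell is the union of the triangles of the crossing pairs -/
lemma inner_eq (hm : Real.sqrt 3 - 1 < m) (h : IsArrangement m x r) :
    innerShell x r = ⋃ q ∈ {q : Fin n × Fin n | Cross x r q.1 q.2}, Tri x r q.1 q.2 := by
  apply Subset.antisymm
  · intro z hz
    obtain ⟨i, hz⟩ := mem_iUnion.1 hz
    obtain ⟨j, hz⟩ := mem_iUnion.1 hz
    obtain ⟨p, hp, hz⟩ := mem_iUnion₂.1 hz
    obtain ⟨hc, hcase⟩ := vertex_cases hm h hp
    rcases hcase with rfl | rfl
    · exact mem_iUnion₂.2 ⟨(i, j), hc, hz⟩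
    · refine mem_iUnion₂.2 ⟨(j, i), hc.symm, ?_⟩
      have : ({P x r j i, x j, x i} : Set ℂ) = {P x r j i, x i, x j} := by
        rw [Set.pair_comm]
      simp only [Tri]
      rw [this]; exact hz
  · intro z hz
    obtain ⟨⟨i, j⟩, hq, hz⟩ := mem_iUnion₂.1 hz
    exact mem_iUnion.2 ⟨i, mem_iUnion.2 ⟨j, mem_iUnion₂.2 ⟨P x r i j, vertex_P hm h hq, hz⟩⟩⟩

/-- points of a triangle -/
lemma mem_tri {a b c z : ℂ} (hz : z ∈ convexHull ℝ {c, a, b}) :
    ∃ s t : ℝ, 0 ≤ s ∧ 0 ≤ t ∧ s + t ≤ 1 ∧ z = a + (s • (b - a) + t • (c - a)) := by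
  have : convexHull ℝ {c, a, b} ⊆ {z : ℂ | ∃ s t : ℝ, 0 ≤ s ∧ 0 ≤ t ∧ s + t ≤ 1 ∧
      z = a + (s • (b - a) + t • (c - a))} := by
    apply convexHull_min
    · rintro z (rfl | rfl | rfl)
      · exact ⟨0, 1, by norm_num, by norm_num, by norm_num, by simp⟩
      · exact ⟨0, 0, by norm_num, by norm_num, by norm_num, by simp⟩
      · exact ⟨1, 0, by norm_num, by norm_num, by norm_num, by simp⟩
    · rintro u ⟨s, t, hs, ht, hst, rfl⟩ v ⟨s', t', hs', ht', hst', rfl⟩ p q hp hq hpq
      refine ⟨p * s + q * s', p * t + q * t', by positivity, by positivity, ?_, ?_⟩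
      · nlinarith [mul_le_mul_of_nonneg_left hst hp, mul_le_mul_of_nonneg_left hst' hq]
      · have e : (p : ℂ) + q = 1 := by exact_mod_cast hpq
        simp only [Complex.real_smul, Complex.ofReal_add, Complex.ofReal_mul]
        linear_combination a * e
  exact this hz

end Pool.Agent.R157.Mink
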