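import Pool.Agent.R157.Mink.Inner

set_option autoImplicit false

namespace Pool.Agent.R157.Mink

open MeasureTheory Metric Set
open scoped ENNReal ComplexConjugate

variable {n : ℕ} {m : ℝ} {x : Fin n → ℂ} {r : Fin n → ℝ}

/-- an exceptional null set of an ordered pair -/
def N1 (x : Fin n → ℂ) (r : Fin n → ℝ) (i j : Fin n) : Set ℂ :=
  sphere (x i) (r i) ∪ {z : ℂ | dot (x j - x i) (z - x i) = kap (r i) (r j) ‖x j - x i‖ * ‖z - x i‖}

lemma vol_N1 (hm : Real.sqrt 3 - 1 < m) (h : IsArrangement m x r) {i j : Fin n} (hc : Cross x r i j) :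
    volume (N1 x r i j) = 0 := by
  rw [N1, measure_union_null_iff]
  refine ⟨Measure.addHaar_sphere _ _ _, null_cone (kap_pos hm h hc.1).le ?_⟩
  have h1 := cross_lt hm h hc
  exact kap_lt (h.pos i) (h.pos j) (by linarith [h.pos i]) h1.2 h1.1 hc.2

/-- half of a triangle is in the closed sector -/
lemma half_cover (hm : Real.sqrt 3 - 1 < m) (h : IsArrangement m x r) {i j : Fin n} (hc : Cross x r i j)
    {q : ℂ} (hq : ‖q‖ = r i) (hqd : dot (x j - x i) q = kap (r i) (r j) ‖x j - x i‖ * r i)
    {s t : ℝ} (hs : 0 ≤ s) (ht : 0 ≤ t) (ht1 : t ≤ 1)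
    (hle : dot (x j - x i) (s • (x j - x i) + t • q) ≤ kap (r i) (r j) ‖x j - x i‖ * r i) :
    x i + (s • (x j - x i) + t • q) ∈ S x r i j ∪ N1 x r i j := by
  have h1 := cross_lt hm h hc
  have hri := h.pos i
  have hκ := kap_pos hm h hc.1
  have hκD := kap_lt (h.pos i) (h.pos j) (by linarith [h.pos i]) h1.2 h1.1 hc.2
  set w := x j - x i with hw
  set κ := kap (r i) (r j) ‖w‖ with hκ'
  have hD : 0 < ‖w‖ := by linarith
  have hn : ‖s • w + t • q‖ ≤ s * ‖w‖ + t * r i := by
    refine (norm_add_le _ _).trans ?_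
    rw [norm_smul, norm_smul, Real.norm_eq_abs, Real.norm_eq_abs, abs_of_nonneg hs, abs_of_nonneg ht, hq]
  have hd : dot w (s • w + t • q) = s * ‖w‖ ^ 2 + t * (κ * r i) := by
    rw [dot_add, dot_smul, dot_smul, dot_self, hqd]
  rw [hd] at hle
  have hb : ‖s • w + t • q‖ ≤ r i := by
    have h2 : s * ‖w‖ ≤ (1 - t) * r i := by
      have h3 : s * ‖w‖ * ‖w‖ ≤ (1 - t) * r i * ‖w‖ := by
        have : (1 - t) * r i * κ ≤ (1 - t) * r i * ‖w‖ :=
          mul_le_mul_of_nonneg_left hκD.le (mul_nonneg (by linarith) hri.le)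
        nlinarith
      exact le_of_mul_le_mul_right h3 hD
    linarith
  have hcone : κ * ‖s • w + t • q‖ ≤ dot w (s • w + t • q) := by
    rw [hd]
    have h4 := mul_le_mul_of_nonneg_left hn hκ.le
    have h5 : κ * (s * ‖w‖) ≤ s * ‖w‖ ^ 2 := by
      have := mul_le_mul_of_nonneg_left hκD.le (mul_nonneg hs hD.le)
      nlinarith
    nlinarith
  rcases hb.eq_or_lt with hb' | hb'
  · right; left
    rw [mem_sphere, dist_eq_norm, add_sub_cancel_left]; exact hb'
  · rcases hcone.eq_or_lt with hc' | hc'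
    · right; right
      simp only [mem_ofPred_eq, add_sub_cancel_left]
      exact hc'.symm
    · left
      refine ⟨?_, ?_⟩
      · simp only [add_sub_cancel_left]; exact hb'
      · simp only [add_sub_cancel_left]; exact hc'

lemma P_swap_aux (hm : Real.sqrt 3 - 1 < m) (h : IsArrangement m x r) {i j : Fin n} (hc : Cross x r i j) :
    dot (x i - x j) (P x r i j - x j) = kap (r j) (r i) ‖x i - x j‖ * r j := by
  have e : dot (x i - x j) (P x r i j - x j) = ‖x j - x i‖ ^ 2 - dot (x j - x i) (P x r i j - x i) := by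
    rw [← dot_self]; simp only [dot, Complex.sub_re, Complex.sub_im]; ring
  rw [e, P_dot hm h hc.1, norm_sub_rev (x i) (x j)]
  have := kap_sum (D := ‖x j - x i‖) (h.pos i) (h.pos j)
  linarith

/-- the triangle is covered by the two sectors, up to a null set -/
lemma tri_cover (hm : Real.sqrt 3 - 1 < m) (h : IsArrangement m x r) {i j : Fin n} (hc : Cross x r i j) :
    Tri x r i j ⊆ (S x r i j ∪ S x r j i) ∪ (N1 x r i j ∪ N1 x r j i) := by
  intro z hz
  obtain ⟨s, t, hs, ht, hst, rfl⟩ := mem_tri hz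
  rcases le_total (dot (x j - x i) (s • (x j - x i) + t • (P x r i j - x i)))
    (kap (r i) (r j) ‖x j - x i‖ * r i) with hle | hle
  · rcases half_cover hm h hc (P_norm hm h hc) (P_dot hm h hc.1) hs ht (by linarith) hle with h1 | h1
    · left; left; exact h1
    · right; left; exact h1
  · have e : x i + (s • (x j - x i) + t • (P x r i j - x i))
        = x j + ((1 - s - t) • (x i - x j) + t • (P x r i j - x j)) := by
      simp only [Complex.real_smul, Complex.ofReal_sub, Complex.ofReal_one]; ring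
    have hle' : dot (x i - x j) ((1 - s - t) • (x i - x j) + t • (P x r i j - x j))
        ≤ kap (r j) (r i) ‖x i - x j‖ * r j := by
      have e2 : dot (x i - x j) ((1 - s - t) • (x i - x j) + t • (P x r i j - x j))
          = ‖x j - x i‖ ^ 2 - dot (x j - x i) (s • (x j - x i) + t • (P x r i j - x i)) := by
        rw [← dot_self]
        simp only [dot, Complex.sub_re, Complex.sub_im, Complex.add_re, Complex.add_im, Complex.real_smul,
          Complex.re_ofReal_mul, Complex.im_ofReal_mul]
        ring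
      rw [e2, norm_sub_rev (x i) (x j)]
      have := kap_sum (D := ‖x j - x i‖) (h.pos i) (h.pos j)
      linarith
    rw [e]
    rcases half_cover hm h hc.symm (P_norm' hm h hc) (P_swap_aux hm h hc) (by linarith) ht (by linarith) hle'
      with h1 | h1
    · left; right; exact h1
    · right; right; exact h1

lemma line_null {a w : ℂ} (hw : w ≠ 0) : volume {z : ℂ | crs w (z - a) = 0} = 0 := by
  have h1 := null_cone (a := a) (w := Complex.I * w) (κ := 0) le_rfl (by
    rw [norm_mul, Complex.norm_I, one_mul]; exact norm_pos_iff.2 hw)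
  refine measure_mono_null ?_ h1
  intro z hz
  simp only [mem_ofPred_eq] at *
  rw [zero_mul, ← hz]
  simp only [dot, crs, Complex.mul_re, Complex.mul_im, Complex.I_re, Complex.I_im]
  ring

lemma crs_swap (i j : Fin n) (z : ℂ) : crs (x i - x j) (z - x j) = - crs (x j - x i) (z - x i) := by
  simp only [crs, Complex.sub_re, Complex.sub_im]; ring

lemma tri_left (hm : Real.sqrt 3 - 1 < m) (h : IsArrangement m x r) {i j : Fin n} (hc : Cross x r i j)
    {z : ℂ} (hz : z ∈ Tri x r i j) : 0 ≤ crs (x j - x i) (z - x i) := by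
  obtain ⟨s, t, hs, ht, hst, rfl⟩ := mem_tri hz
  rw [add_sub_cancel_left, crs_add, crs_smul, crs_smul, P_crs hm h hc.1]
  have e : crs (x j - x i) (x j - x i) = 0 := by simp only [crs]; ring
  rw [e]
  have := hh_pos hm h hc
  have := norm_nonneg (x j - x i)
  positivity

lemma tri_inter (hm : Real.sqrt 3 - 1 < m) (h : IsArrangement m x r) {i j k l : Fin n}
    (hc : Cross x r i j) (hc' : Cross x r k l) (hne : ¬ (i = k ∧ j = l)) :
    volume (Tri x r i j ∩ Tri x r k l) = 0 := by
  by_cases hsw : i = l ∧ j = k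
  · obtain ⟨rfl, rfl⟩ := hsw
    refine measure_mono_null ?_ (line_null (a := x i) (w_ne hm h hc.1))
    rintro z ⟨h1, h2⟩
    have h3 := tri_left hm h hc h1
    have h4 := tri_left hm h hc' h2
    rw [crs_swap] at h4
    simp only [mem_ofPred_eq]
    linarith
  · have hN : volume ((N1 x r i j ∪ N1 x r j i) ∪ (N1 x r k l ∪ N1 x r l k)) = 0 := by
      rw [measure_union_null_iff, measure_union_null_iff, measure_union_null_iff]
      exact ⟨⟨vol_N1 hm h hc, vol_N1 hm h hc.symm⟩, ⟨vol_N1 hm h hc', vol_N1 hm h hc'.symm⟩⟩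
    refine measure_mono_null ?_ hN
    rintro z ⟨h1, h2⟩
    rcases tri_cover hm h hc h1 with h3 | h3
    · rcases tri_cover hm h hc' h2 with h4 | h4
      · exfalso
        rcases h3 with h3 | h3 <;> rcases h4 with h4 | h4
        · exact S_disj' hm h hc.1 hc'.1 hne hsw h3 h4
        · exact S_disj' hm h hc.1 hc'.1.symm (fun e => hsw e) (fun e => hne ⟨e.1, e.2⟩) h3 h4
        · exact S_disj' hm h hc.1.symm hc'.1 (fun e => hsw ⟨e.2, e.1⟩) (fun e => hne ⟨e.2, e.1⟩) h3 h4
        · exact S_disj' hm h hc.1.symm hc'.1.symm (fun e => hne ⟨e.2, e.1⟩) (fun e => hsw ⟨e.2, e.1⟩) h3 h4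
      · right; exact h4
    · left; exact h3

lemma Tri_vol (hm : Real.sqrt 3 - 1 < m) (h : IsArrangement m x r) {i j : Fin n} (hc : Cross x r i j) :
    volume (Tri x r i j) = ENNReal.ofReal (‖x j - x i‖ * hh x r i j / 2) := by
  have e : ({P x r i j, x i, x j} : Set ℂ) = {x i, x j, P x r i j} := by
    ext z; simp only [mem_insert_iff, mem_singleton_iff]; tauto
  rw [Tri, e, vol_tri, P_crs hm h hc.1, abs_of_pos]
  exact mul_pos (norm_pos_iff.2 (w_ne hm h hc.1)) (hh_pos hm h hc)

lemma Tri_null (i j : Fin n) : NullMeasurableSet (Tri x r i j) volume := by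
  apply IsCompact.measurableSet _ |>.nullMeasurableSet
  exact (Set.toFinite _).isCompact_convexHull ℝ

open Classical in
/-- the area of the inner shell -/
theorem inner_real (hm : Real.sqrt 3 - 1 < m) (h : IsArrangement m x r) :
    volume.real (innerShell x r) = ∑ q ∈ Finset.univ.filter (fun q : Fin n × Fin n => Cross x r q.1 q.2),
      ‖x q.2 - x q.1‖ * hh x r q.1 q.2 / 2 := by
  have e : innerShell x r = ⋃ q ∈ Finset.univ.filter (fun q : Fin n × Fin n => Cross x r q.1 q.2),
      Tri x r q.1 q.2 := by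
    rw [inner_eq hm h]; ext z; simp
  rw [Measure.real, e, measure_biUnion_finset₀, ENNReal.toReal_sum]
  · apply Finset.sum_congr rfl
    intro q hq
    have hc := (Finset.mem_filter.1 hq).2
    rw [Tri_vol hm h hc, ENNReal.toReal_ofReal]
    have := hh_pos hm h hc
    have := norm_nonneg (x q.2 - x q.1)
    positivity
  · intro q hq
    rw [Tri_vol hm h (Finset.mem_filter.1 hq).2]
    exact ENNReal.ofReal_ne_top
  · intro p hp q hq hpq
    have hp' := (Finset.mem_filter.1 hp).2
    have hq' := (Finset.mem_filter.1 hq).2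
    exact tri_inter hm h hp' hq' (fun e => hpq (Prod.ext e.1 e.2))
  · intro q _; exact Tri_null _ _

end Pool.Agent.R157.Mink
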