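import Pool.Agent.R157.Mink.Inner2

set_option autoImplicit false

namespace Pool.Agent.R157.Mink

open MeasureTheory Metric Set
open scoped ENNReal

variable {n : ℕ} {m : ℝ} {x : Fin n → ℂ} {r : Fin n → ℝ}

lemma digon_cross (h : IsArrangement m x r) {i j : Fin n} (hij : i ≠ j) :
    (digon x r i j).Nonempty ↔ Cross x r i j := by
  constructor
  · rintro ⟨z, hz1, hz2⟩
    refine ⟨hij, ?_⟩
    rw [mem_ball, dist_eq_norm] at hz1 hz2
    have := norm_sub_le (z - x i) (z - x j)
    have e : (z - x i) - (z - x j) = x j - x i := by ring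
    rw [e] at this
    linarith
  · rintro ⟨_, hc⟩
    have hi := h.pos i
    have hj := h.pos j
    refine ⟨x i + (r i / (r i + r j)) • (x j - x i), ?_, ?_⟩
    · rw [mem_ball, dist_eq_norm, add_sub_cancel_left, norm_smul, Real.norm_eq_abs,
        abs_of_pos (by positivity), div_mul_eq_mul_div, div_lt_iff₀ (by positivity)]
      nlinarith
    · have e : x i + (r i / (r i + r j)) • (x j - x i) - x j = (r j / (r i + r j)) • (x i - x j) := by
        have h2 : (r i / (r i + r j)) = 1 - (r j / (r i + r j)) := by field_simp; ring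
        rw [h2]
        simp only [Complex.real_smul, Complex.ofReal_sub, Complex.ofReal_one]; ring
      rw [mem_ball, dist_eq_norm, e, norm_smul, Real.norm_eq_abs,
        abs_of_pos (by positivity), div_mul_eq_mul_div, div_lt_iff₀ (by positivity), norm_sub_rev]
      nlinarith

lemma touch_iff (hm : Real.sqrt 3 - 1 < m) (hm1 : m < 1) (h : IsArrangement m x r) {i j : Fin n}
    (hc : Cross x r i j) :
    (closure (digon x r i j) ∩ closure (core m x r i)).Nonempty ↔ ‖x j - x i‖ = r j + m * r i := by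
  have hi := h.pos i
  have hj := h.pos j
  obtain ⟨_, h2⟩ := mu_facts hm
  have hmi : 0 < m * r i := by positivity
  have hsep := (max_le_iff.1 (sep' h hc.1)).2
  have hcore : closure (core m x r i) = closedBall (x i) (m * r i) := closure_ball _ hmi.ne'
  rw [hcore]
  constructor
  · rintro ⟨z, hz1, hz2⟩
    have h3 : z ∈ closedBall (x j) (r j) := by
      have : closure (digon x r i j) ⊆ closedBall (x j) (r j) :=
        closure_minimal (inter_subset_right.trans ball_subset_closedBall) isClosed_closedBall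
      exact this hz1
    rw [mem_closedBall, dist_eq_norm] at hz2 h3
    have := norm_sub_le (z - x i) (z - x j)
    have e : (z - x i) - (z - x j) = x j - x i := by ring
    rw [e] at this
    linarith
  · intro hD
    have hD0 : 0 < ‖x j - x i‖ := norm_pos_iff.2 (w_ne hm h hc.1)
    refine ⟨x i + (m * r i / ‖x j - x i‖) • (x j - x i), ?_, ?_⟩
    · rw [Metric.mem_closure_iff]
      intro ε hε
      have hδ : ∃ δ : ℝ, 0 < δ ∧ δ < ε ∧ δ < (1 - m) * r i ∧ δ < r j := by
        refine ⟨min (min (ε / 2) ((1 - m) * r i / 2)) (r j / 2), ?_, ?_, ?_, ?_⟩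
        · have : 0 < (1 - m) * r i := mul_pos (by linarith) hi
          positivity
        · have h1 := min_le_left (min (ε / 2) ((1 - m) * r i / 2)) (r j / 2)
          have h2 := min_le_left (ε / 2) ((1 - m) * r i / 2)
          linarith
        · have h1 := min_le_left (min (ε / 2) ((1 - m) * r i / 2)) (r j / 2)
          have h2 := min_le_right (ε / 2) ((1 - m) * r i / 2)
          have : 0 < (1 - m) * r i := mul_pos (by linarith) hi
          linarith
        · have h1 := min_le_right (min (ε / 2) ((1 - m) * r i / 2)) (r j / 2)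
          linarith
      obtain ⟨δ, d0, d1, d2, d3⟩ := hδ
      refine ⟨x i + ((m * r i + δ) / ‖x j - x i‖) • (x j - x i), ⟨?_, ?_⟩, ?_⟩
      · rw [mem_ball, dist_eq_norm, add_sub_cancel_left, norm_smul, Real.norm_eq_abs,
          abs_of_pos (by positivity), div_mul_cancel₀ _ hD0.ne']
        nlinarith
      · have e : x i + ((m * r i + δ) / ‖x j - x i‖) • (x j - x i) - x j
            = ((r j - δ) / ‖x j - x i‖) • (x i - x j) := by
          have h2 : ((m * r i + δ) / ‖x j - x i‖) = 1 - ((r j - δ) / ‖x j - x i‖) := by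
            field_simp; linarith
          rw [h2]
          simp only [Complex.real_smul, Complex.ofReal_sub, Complex.ofReal_one]; ring
        rw [mem_ball, dist_eq_norm, e, norm_smul, Real.norm_eq_abs, norm_sub_rev (x i) (x j),
          abs_of_pos (div_pos (by linarith) hD0), div_mul_cancel₀ _ hD0.ne']
        linarith
      · rw [dist_eq_norm]
        have e : x i + (m * r i / ‖x j - x i‖) • (x j - x i) - (x i + ((m * r i + δ) / ‖x j - x i‖) • (x j - x i))
            = (-(δ / ‖x j - x i‖)) • (x j - x i) := by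
          have h2 : ((m * r i + δ) / ‖x j - x i‖) = m * r i / ‖x j - x i‖ + δ / ‖x j - x i‖ := by
            rw [add_div]
          rw [h2]
          simp only [Complex.real_smul, Complex.ofReal_add, Complex.ofReal_neg]; ring
        rw [e, norm_smul, Real.norm_eq_abs, abs_neg, abs_of_pos (by positivity), div_mul_cancel₀ _ hD0.ne']
        exact d1
    · rw [mem_closedBall, dist_eq_norm, add_sub_cancel_left, norm_smul, Real.norm_eq_abs,
        abs_of_pos (by positivity), div_mul_cancel₀ _ hD0.ne']

lemma digon_comm (i j : Fin n) : digon x r i j = digon x r j i := inter_comm _ _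

lemma thick_iff (hm : Real.sqrt 3 - 1 < m) (hm1 : m < 1) (h : IsArrangement m x r) {i j : Fin n}
    (hc : Cross x r i j) :
    Thick m x r i j ↔ ‖x j - x i‖ = r i + m * r j ∧ ‖x j - x i‖ = r j + m * r i := by
  have h1 := touch_iff hm hm1 h hc
  have h2 := touch_iff hm hm1 h hc.symm
  rw [digon_comm j i, norm_sub_rev] at h2
  rw [Thick, h1, h2, and_comm]

lemma free_of_cross (hm : Real.sqrt 3 - 1 < m) (h : IsArrangement m x r) {i j : Fin n}
    (hc : Cross x r i j) : Free x r i j := by
  intro k hki hkj hsub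
  obtain ⟨z, hz⟩ := (digon_cross h hc.1).2 hc
  have h3 := hsub hz
  obtain ⟨h1, h2⟩ := hz
  rw [mem_ball, dist_eq_norm] at h1 h2 h3
  exact no_triple hm h hc.1 hki.symm hkj.symm h1.le h2.le h3.le

open Classical in
/-- **Total area of finite generalized Minkowski arrangements of order `√3 - 1 < μ < 1`.** -/
theorem main {n : ℕ} {m : ℝ} (hm : Real.sqrt 3 - 1 < m) (hm1 : m < 1) (x : Fin n → ℂ)
    (r : Fin n → ℝ) (h : IsArrangement m x r) :
    Real.pi * ∑ i, r i ^ 2 ≤
      cMu m * (volume (innerShell x r)).toReal + (volume (outerShell x r)).toReal ∧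
    (Real.pi * ∑ i, r i ^ 2 =
      cMu m * (volume (innerShell x r)).toReal + (volume (outerShell x r)).toReal ↔
      ∀ i j : Fin n, i ≠ j → (digon x r i j).Nonempty → Free x r i j → Thick m x r i j) := by
  have hin := inner_real hm h
  have hout := outer_real hm h
  rw [Measure.real] at hin hout
  rw [hin, hout]
  set C := Finset.univ.filter (fun q : Fin n × Fin n => Cross x r q.1 q.2) with hC
  set f : Fin n × Fin n → ℝ := fun q => r q.1 ^ 2 * ang (r q.1) (r q.2) ‖x q.2 - x q.1‖ with hf
  have hsum : ∑ i, ∑ j ∈ Finset.univ.erase i, r i ^ 2 * ang (r i) (r j) ‖x j - x i‖ = ∑ q ∈ C, f q := by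
    have e1 : ∑ i, ∑ j ∈ Finset.univ.erase i, r i ^ 2 * ang (r i) (r j) ‖x j - x i‖
        = ∑ i, ∑ j, if Cross x r i j then f (i, j) else 0 := by
      apply Finset.sum_congr rfl
      intro i _
      rw [← Finset.add_sum_erase _ _ (Finset.mem_univ i), if_neg (fun hc => hc.1 rfl), zero_add]
      apply Finset.sum_congr rfl
      intro j hj
      have hij : i ≠ j := (Finset.ne_of_mem_erase hj).symm
      by_cases hc : Cross x r i j
      · rw [if_pos hc]
      · rw [if_neg hc]
        have hle : r i + r j ≤ ‖x j - x i‖ := by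
          by_contra hcon
          push Not at hcon
          exact hc ⟨hij, hcon⟩
        rw [ang_zero (h.pos i) (h.pos j) (norm_pos_iff.2 (w_ne hm h hij)) hle, mul_zero]
    rw [e1, hC, Finset.sum_filter, ← Finset.univ_product_univ, Finset.sum_product]
  have hswap : ∑ q ∈ C, f q.swap = ∑ q ∈ C, f q := by
    apply Finset.sum_nbij' (fun q => q.swap) (fun q => q.swap)
    · intro q hq
      rw [hC, Finset.mem_filter] at *
      exact ⟨Finset.mem_univ _, hq.2.symm⟩
    · intro q hq
      rw [hC, Finset.mem_filter] at *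
      exact ⟨Finset.mem_univ _, hq.2.symm⟩
    · intro q _; simp
    · intro q _; simp
    · intro q _; rfl
  have hpair : ∀ q ∈ C, f q + f q.swap ≤ cMu m * (‖x q.2 - x q.1‖ * hh x r q.1 q.2) := by
    intro q hq
    have hc := (Finset.mem_filter.1 hq).2
    have := (pair_ineq hm hm1 (h.pos q.1) (h.pos q.2) (sep' h hc.1) hc.2).1
    simp only [hf, Prod.fst_swap, Prod.snd_swap, hh]
    rwa [norm_sub_rev (x q.1) (x q.2)]
  have hpair' : ∀ q ∈ C, (f q + f q.swap = cMu m * (‖x q.2 - x q.1‖ * hh x r q.1 q.2) ↔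
      Thick m x r q.1 q.2) := by
    intro q hq
    have hc := (Finset.mem_filter.1 hq).2
    have := (pair_ineq hm hm1 (h.pos q.1) (h.pos q.2) (sep' h hc.1) hc.2).2
    rw [thick_iff hm hm1 h hc, ← this]
    simp only [hf, Prod.fst_swap, Prod.snd_swap, hh]
    rw [norm_sub_rev (x q.1) (x q.2)]
  have hT : ∑ i, (Real.pi * r i ^ 2 - ∑ j ∈ Finset.univ.erase i, r i ^ 2 * ang (r i) (r j) ‖x j - x i‖)
      = Real.pi * ∑ i, r i ^ 2 - ∑ q ∈ C, f q := by
    rw [Finset.sum_sub_distrib, hsum, Finset.mul_sum]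
  have hI : cMu m * ∑ q ∈ C, ‖x q.2 - x q.1‖ * hh x r q.1 q.2 / 2
      = (∑ q ∈ C, cMu m * (‖x q.2 - x q.1‖ * hh x r q.1 q.2)) / 2 := by
    rw [Finset.mul_sum, Finset.sum_div]
    apply Finset.sum_congr rfl
    intro q _; ring
  have hF : ∑ q ∈ C, f q = (∑ q ∈ C, (f q + f q.swap)) / 2 := by
    rw [Finset.sum_add_distrib, hswap]; ring
  have hle := Finset.sum_le_sum hpair
  have heq := Finset.sum_eq_sum_iff_of_le hpair
  rw [hT, hI]
  refine ⟨by linarith, ?_⟩
  have h1 : (Real.pi * ∑ i, r i ^ 2 = (∑ q ∈ C, cMu m * (‖x q.2 - x q.1‖ * hh x r q.1 q.2)) / 2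
      + (Real.pi * ∑ i, r i ^ 2 - ∑ q ∈ C, f q)) ↔
      ∑ q ∈ C, (f q + f q.swap) = ∑ q ∈ C, cMu m * (‖x q.2 - x q.1‖ * hh x r q.1 q.2) := by
    constructor <;> intro h2 <;> linarith
  rw [h1, heq]
  constructor
  · intro h2 i j hij hd _
    have hc := (digon_cross h hij).1 hd
    have hq : (i, j) ∈ C := Finset.mem_filter.2 ⟨Finset.mem_univ _, hc⟩
    exact (hpair' (i, j) hq).1 (h2 (i, j) hq)
  · intro h2 q hq
    have hc := (Finset.mem_filter.1 hq).2
    exact (hpair' q hq).2 (h2 q.1 q.2 hc.1 ((digon_cross h hc.1).2 hc) (free_of_cross hm h hc))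

end Pool.Agent.R157.Mink
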