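import Pool.Agent.R157.Mink.Geo

set_option autoImplicit false

namespace Pool.Agent.R157.Mink

open MeasureTheory Metric Set
open scoped ENNReal ComplexConjugate

variable {n : ℕ} {m : ℝ} {x : Fin n → ℂ} {r : Fin n → ℝ}

/-- disk `i` without its sectors -/
def Ob (x : Fin n → ℂ) (r : Fin n → ℝ) (i : Fin n) : Set ℂ :=
  ball (x i) (r i) \ ⋃ j ∈ Finset.univ.erase i, S x r i j

/-- an exceptional null set -/
def N0 (x : Fin n → ℂ) (r : Fin n → ℝ) : Set ℂ := ⋃ i, (sphere (x i) (r i) ∪ {x i})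

lemma isOpen_U : IsOpen (U x r) := isOpen_iUnion fun _ => isOpen_ball

lemma S_subset (i j : Fin n) : S x r i j ⊆ ball (x i) (r i) := by
  intro z hz
  rw [mem_ball, dist_eq_norm]; exact hz.1

lemma isOpen_S (i j : Fin n) : IsOpen (S x r i j) := isOpen_Sec _ _ _ _

lemma vol_N0 : volume (N0 x r) = 0 := by
  rw [N0, measure_iUnion_null_iff]
  intro i
  rw [measure_union_null_iff]
  exact ⟨Measure.addHaar_sphere _ _ _, measure_singleton _⟩

lemma mem_frontier_U (h : IsArrangement m x r) {i : Fin n} {y : ℂ} (hy : dist y (x i) = r i)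
    (hn : ∀ j, y ∉ ball (x j) (r j)) : y ∈ frontier (U x r) := by
  rw [isOpen_U.frontier_eq]
  refine ⟨?_, ?_⟩
  · have h1 : closure (ball (x i) (r i)) ⊆ closure (U x r) := closure_mono (subset_iUnion (fun i => ball (x i) (r i)) i)
    apply h1
    rw [closure_ball _ (h.pos i).ne', mem_closedBall]
    exact hy.le
  · intro hU
    obtain ⟨j, hj⟩ := mem_iUnion.1 hU
    exact hn j hj

lemma notMem_of_frontier {y : ℂ} (hy : y ∈ frontier (U x r)) (j : Fin n) : ¬ ‖y - x j‖ < r j := by
  rw [isOpen_U.frontier_eq] at hy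
  intro h
  apply hy.2
  exact mem_iUnion.2 ⟨j, by rw [mem_ball, dist_eq_norm]; exact h⟩

lemma outer_sub (h : IsArrangement m x r) : outerShell x r ⊆ (⋃ i, Ob x r i) ∪ N0 x r := by
  intro z hz
  obtain ⟨i, hz⟩ := mem_iUnion.1 hz
  obtain ⟨y, hy, hz⟩ := mem_iUnion₂.1 hz
  obtain ⟨hyf, hys⟩ := hy
  rw [segment_eq_image'] at hz
  obtain ⟨t, ⟨ht0, ht1⟩, rfl⟩ := hz
  rw [mem_sphere, dist_eq_norm] at hys
  have hr := h.pos i
  simp only
  rcases ht0.eq_or_lt with h0 | h0
  · right
    refine mem_iUnion.2 ⟨i, Or.inr ?_⟩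
    rw [← h0]; simp
  rcases ht1.eq_or_lt with h1 | h1
  · right
    refine mem_iUnion.2 ⟨i, Or.inl ?_⟩
    rw [h1, mem_sphere, dist_eq_norm]; simpa using hys
  left
  refine mem_iUnion.2 ⟨i, ?_, ?_⟩
  · rw [mem_ball, dist_eq_norm, add_sub_cancel_left, norm_smul, hys, Real.norm_eq_abs, abs_of_pos h0]
    nlinarith
  · intro hmem
    obtain ⟨j, hj, hjS⟩ := mem_iUnion₂.1 hmem
    have hz : (x i + t • (y - x i)) - x i = t • (y - x i) := by ring
    have hyne : y - x i ≠ 0 := by
      intro h0'; rw [h0', norm_zero] at hys; linarith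
    have hne : (x i + t • (y - x i)) - x i ≠ 0 := by
      rw [hz]; exact smul_ne_zero h0.ne' hyne
    have h2 := (ray_iff hr (h.pos j) hne).2 hjS.2
    rw [hz, norm_smul, Real.norm_eq_abs, abs_of_pos h0, hys, smul_smul] at h2
    have e : r i / (t * r i) * t = 1 := by field_simp
    rw [e, one_smul] at h2
    apply notMem_of_frontier hyf j
    have e2 : y - x j = y - x i - (x j - x i) := by ring
    rw [e2]; exact h2

lemma sub_outer (h : IsArrangement m x r) : (⋃ i, Ob x r i) ⊆ outerShell x r ∪ N0 x r := by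
  intro z hz
  obtain ⟨i, hzb, hzS⟩ := mem_iUnion.1 hz
  have hr := h.pos i
  by_cases h0 : z = x i
  · right; exact mem_iUnion.2 ⟨i, Or.inr h0⟩
  left
  have hq : z - x i ≠ 0 := sub_ne_zero.2 h0
  have hN : 0 < ‖z - x i‖ := norm_pos_iff.2 hq
  rw [mem_ball, dist_eq_norm] at hzb
  refine mem_iUnion.2 ⟨i, mem_iUnion₂.2 ⟨x i + (r i / ‖z - x i‖) • (z - x i), ⟨?_, ?_⟩, ?_⟩⟩
  · have hd : ‖x i + (r i / ‖z - x i‖) • (z - x i) - x i‖ = r i := by
      rw [add_sub_cancel_left, norm_smul, Real.norm_eq_abs, abs_of_pos (div_pos hr hN), div_mul_cancel₀ _ hN.ne']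
    apply mem_frontier_U h (i := i)
    · rw [dist_eq_norm, hd]
    · intro j hj
      rw [mem_ball, dist_eq_norm] at hj
      by_cases hij : j = i
      · subst hij; rw [hd] at hj; exact lt_irrefl _ hj
      · apply hzS
        refine mem_iUnion₂.2 ⟨j, Finset.mem_erase.2 ⟨hij, Finset.mem_univ _⟩, hzb, ?_⟩
        apply (ray_iff hr (h.pos j) hq).1
        have e : x i + (r i / ‖z - x i‖) • (z - x i) - x j = (r i / ‖z - x i‖) • (z - x i) - (x j - x i) := by ring
        rwa [e] at hj
  · rw [mem_sphere, dist_eq_norm, add_sub_cancel_left, norm_smul, Real.norm_eq_abs, abs_of_pos (div_pos hr hN),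
      div_mul_cancel₀ _ hN.ne']
  · rw [segment_eq_image']
    refine ⟨‖z - x i‖ / r i, ⟨by positivity, by rw [div_le_one hr]; exact hzb.le⟩, ?_⟩
    simp only
    rw [add_sub_cancel_left, smul_smul]
    have e : ‖z - x i‖ / r i * (r i / ‖z - x i‖) = 1 := by field_simp
    rw [e, one_smul]; ring

lemma vol_outer (h : IsArrangement m x r) : volume (outerShell x r) = volume (⋃ i, Ob x r i) := by
  apply le_antisymm
  · calc volume (outerShell x r) ≤ volume ((⋃ i, Ob x r i) ∪ N0 x r) := measure_mono (outer_sub h)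
      _ ≤ volume (⋃ i, Ob x r i) + volume (N0 x r) := measure_union_le _ _
      _ = _ := by rw [vol_N0, add_zero]
  · calc volume (⋃ i, Ob x r i) ≤ volume (outerShell x r ∪ N0 x r) := measure_mono (sub_outer h)
      _ ≤ volume (outerShell x r) + volume (N0 x r) := measure_union_le _ _
      _ = _ := by rw [vol_N0, add_zero]

lemma Ob_meas (i : Fin n) : MeasurableSet (Ob x r i) :=
  measurableSet_ball.diff (Finset.measurableSet_biUnion _ fun j _ => (isOpen_S i j).measurableSet)

lemma Ob_disj (hm : Real.sqrt 3 - 1 < m) (h : IsArrangement m x r) :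
    Pairwise (Function.onFun Disjoint (Ob x r)) := by
  intro i j hij
  rw [Function.onFun, Set.disjoint_left]
  intro z hi hj
  apply hi.2
  refine mem_iUnion₂.2 ⟨j, Finset.mem_erase.2 ⟨hij.symm, Finset.mem_univ _⟩, ?_⟩
  apply lens_sub hm h hij
  · have := hi.1; rwa [mem_ball, dist_eq_norm] at this
  · have := hj.1; rwa [mem_ball, dist_eq_norm] at this

lemma S_real (hm : Real.sqrt 3 - 1 < m) (h : IsArrangement m x r) {i j : Fin n} (hij : i ≠ j) :
    volume.real (S x r i j) = r i ^ 2 * ang (r i) (r j) ‖x j - x i‖ := by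
  have hw : x j - x i ≠ 0 := by
    have := D_pos hm (h.pos i) (h.pos j) (sep' h hij)
    exact norm_pos_iff.1 this
  have hr := h.pos i
  rw [Measure.real, S, vol_Sec hw (h.pos i) (kap_pos hm h hij), ENNReal.toReal_ofReal, ang_eq]
  have := Real.arccos_nonneg (kap (r i) (r j) ‖x j - x i‖ / ‖x j - x i‖)
  positivity

lemma ball_fin (a : ℂ) (ρ : ℝ) : volume (ball a ρ) ≠ ∞ := measure_ball_lt_top.ne

lemma ball_real {a : ℂ} {ρ : ℝ} (hρ : 0 < ρ) : volume.real (ball a ρ) = Real.pi * ρ ^ 2 := by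
  rw [Measure.real, Complex.volume_ball, ENNReal.toReal_mul, ENNReal.toReal_pow, ENNReal.toReal_ofReal hρ.le]
  simp [NNReal.coe_real_pi, mul_comm]

lemma Ob_real (hm : Real.sqrt 3 - 1 < m) (h : IsArrangement m x r) (i : Fin n) :
    volume.real (Ob x r i) = Real.pi * r i ^ 2
      - ∑ j ∈ Finset.univ.erase i, r i ^ 2 * ang (r i) (r j) ‖x j - x i‖ := by
  have hsub : (⋃ j ∈ Finset.univ.erase i, S x r i j) ⊆ ball (x i) (r i) :=
    iUnion₂_subset fun j _ => S_subset i j
  rw [Ob, measureReal_sdiff hsub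
    (Finset.measurableSet_biUnion _ fun j _ => (isOpen_S i j).measurableSet) (ball_fin _ _), ball_real (h.pos i)]
  congr 1
  rw [measureReal_biUnion_finset (s := Finset.univ.erase i) (f := fun j => S x r i j) ?_
    (fun j _ => (isOpen_S i j).measurableSet)
    (fun j _ => ((measure_mono (S_subset i j)).trans_lt measure_ball_lt_top).ne)]
  · apply Finset.sum_congr rfl
    intro j hj
    exact S_real hm h (Finset.ne_of_mem_erase hj).symm
  · intro j hj k hk hjk
    rw [Function.onFun, Set.disjoint_left]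
    intro z h1 h2
    exact S_disj hm h (Finset.ne_of_mem_erase hj).symm (Finset.ne_of_mem_erase hk).symm hjk h1 h2

/-- the area of the outer shell -/
theorem outer_real (hm : Real.sqrt 3 - 1 < m) (h : IsArrangement m x r) :
    volume.real (outerShell x r) = ∑ i, (Real.pi * r i ^ 2
      - ∑ j ∈ Finset.univ.erase i, r i ^ 2 * ang (r i) (r j) ‖x j - x i‖) := by
  rw [Measure.real, vol_outer h, measure_iUnion (Ob_disj hm h) Ob_meas, tsum_fintype, ENNReal.toReal_sum]
  · apply Finset.sum_congr rfl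
    intro i _
    exact Ob_real hm h i
  · intro i _
    exact ((measure_mono sdiff_subset).trans_lt measure_ball_lt_top).ne

end Pool.Agent.R157.Mink
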