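import Pool.Agent.R157.Mink.Defs

set_option autoImplicit false

namespace Pool.Agent.R157.Mink

open Real

/-- half the angle under which the arc of circle `1` inside circle `2` is seen -/
noncomputable def ang (a b D : ℝ) : ℝ := Real.arccos ((D ^ 2 + a ^ 2 - b ^ 2) / (2 * a * D))

lemma sin_div_anti {x y : ℝ} (hx : 0 < x) (hxy : x < y) (hy : y ≤ π) :
    x * Real.sin y < y * Real.sin x := by
  have hq : 0 < 1 - x / y := by rw [sub_pos, div_lt_one (hx.trans hxy)]; exact hxy
  have h := strictConcaveOn_sin_Icc.2 (show (0 : ℝ) ∈ Set.Icc 0 π from ⟨le_rfl, Real.pi_pos.le⟩)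
    (show y ∈ Set.Icc 0 π from ⟨(hx.trans hxy).le, hy⟩) (hx.trans hxy).ne hq
    (div_pos hx (hx.trans hxy)) (by ring)
  simp only [smul_eq_mul, Real.sin_zero, mul_zero, zero_add] at h
  have hy0 : 0 < y := hx.trans hxy
  have e1 : x / y * y = x := by field_simp
  rw [e1] at h
  have h2 : x / y * Real.sin y * y < Real.sin x * y := mul_lt_mul_of_pos_right h hy0
  have e2 : x / y * Real.sin y * y = x * Real.sin y := by field_simp
  rw [e2] at h2
  linarith

lemma mu_facts {m : ℝ} (hm : Real.sqrt 3 - 1 < m) : 2 < m ^ 2 + 2 * m ∧ 1 / 2 < m := by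
  have h3 : Real.sqrt 3 ^ 2 = 3 := Real.sq_sqrt (by norm_num)
  have h1 : (3 : ℝ) / 2 < Real.sqrt 3 := by
    rw [Real.lt_sqrt (by norm_num)]; norm_num
  constructor
  · nlinarith
  · linarith

lemma D_sq {m a b D : ℝ} (hm : Real.sqrt 3 - 1 < m) (ha : 0 < a) (hb : 0 < b)
    (hD : max (a + m * b) (b + m * a) ≤ D) : a ^ 2 + b ^ 2 < D ^ 2 := by
  obtain ⟨h1, h2⟩ := mu_facts hm
  have hD1 := (max_le_iff.1 hD).1
  have hD2 := (max_le_iff.1 hD).2
  rcases le_total a b with h | h
  · have hp : 0 < b + m * a := by positivity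
    have : (b + m * a) ^ 2 ≤ D ^ 2 := by gcongr
    nlinarith [mul_pos ha hb, mul_pos ha ha]
  · have hp : 0 < a + m * b := by positivity
    have : (a + m * b) ^ 2 ≤ D ^ 2 := by gcongr
    nlinarith [mul_pos ha hb, mul_pos hb hb]

lemma D_pos {m a b D : ℝ} (hm : Real.sqrt 3 - 1 < m) (ha : 0 < a) (hb : 0 < b)
    (hD : max (a + m * b) (b + m * a) ≤ D) : 0 < D := by
  obtain ⟨h1, h2⟩ := mu_facts hm
  have hD1 := (max_le_iff.1 hD).1
  have : 0 < m * b := by positivity
  linarith

/-- facts on the two half angles -/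
lemma ang_facts {m a b D : ℝ} (hm : Real.sqrt 3 - 1 < m) (ha : 0 < a) (hb : 0 < b)
    (hD : max (a + m * b) (b + m * a) ≤ D) (hc : D < a + b) :
    0 < ang a b D ∧ ang a b D < π / 2 ∧ Real.cos (ang a b D) = (D ^ 2 + a ^ 2 - b ^ 2) / (2 * a * D) := by
  have hs := D_sq hm ha hb hD
  have hD0 := D_pos hm ha hb hD
  obtain ⟨h1, h2⟩ := mu_facts hm
  have hD1 := (max_le_iff.1 hD).1
  have hD2 := (max_le_iff.1 hD).2
  have hDa : a < D := by nlinarith [mul_pos (lt_trans (by norm_num) h2) hb]
  have hDb : b < D := by nlinarith [mul_pos (lt_trans (by norm_num) h2) ha]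
  have hpos : 0 < (D ^ 2 + a ^ 2 - b ^ 2) / (2 * a * D) := by
    apply div_pos _ (by positivity); nlinarith
  have hlt : (D ^ 2 + a ^ 2 - b ^ 2) / (2 * a * D) < 1 := by
    rw [div_lt_one (by positivity)]
    nlinarith [mul_pos (show 0 < D - a by linarith) (show (0:ℝ) < 2 by norm_num)]
  refine ⟨?_, ?_, ?_⟩
  · exact Real.arccos_pos.2 hlt
  · exact Real.arccos_lt_pi_div_two.2 hpos
  · exact Real.cos_arccos (by linarith) hlt.le

lemma ang_sin_sq {m a b D : ℝ} (hm : Real.sqrt 3 - 1 < m) (ha : 0 < a) (hb : 0 < b)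
    (hD : max (a + m * b) (b + m * a) ≤ D) (hc : D < a + b) :
    (a * Real.sin (ang a b D)) ^ 2
      = (2 * a ^ 2 * b ^ 2 + 2 * a ^ 2 * D ^ 2 + 2 * b ^ 2 * D ^ 2 - a ^ 4 - b ^ 4 - D ^ 4) / (4 * D ^ 2) := by
  obtain ⟨_, _, h3⟩ := ang_facts hm ha hb hD hc
  have hD0 := D_pos hm ha hb hD
  have hs : Real.sin (ang a b D) ^ 2 = 1 - Real.cos (ang a b D) ^ 2 := by
    rw [Real.sin_sq]
  rw [mul_pow, hs, h3]
  field_simp
  ring

lemma max_swap {m a b D : ℝ} (hD : max (a + m * b) (b + m * a) ≤ D) :
    max (b + m * a) (a + m * b) ≤ D := by rwa [max_comm]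

/-- law of sines -/
lemma ang_sines {m a b D : ℝ} (hm : Real.sqrt 3 - 1 < m) (ha : 0 < a) (hb : 0 < b)
    (hD : max (a + m * b) (b + m * a) ≤ D) (hc : D < a + b) :
    a * Real.sin (ang a b D) = b * Real.sin (ang b a D) := by
  have h1 := ang_sin_sq hm ha hb hD hc
  have h2 := ang_sin_sq hm hb ha (max_swap hD) (by linarith)
  obtain ⟨p1, p2, _⟩ := ang_facts hm ha hb hD hc
  obtain ⟨q1, q2, _⟩ := ang_facts hm hb ha (max_swap hD) (by linarith)
  have s1 : 0 ≤ a * Real.sin (ang a b D) :=
    mul_nonneg ha.le (Real.sin_nonneg_of_nonneg_of_le_pi p1.le (by linarith [Real.pi_pos]))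
  have s2 : 0 ≤ b * Real.sin (ang b a D) :=
    mul_nonneg hb.le (Real.sin_nonneg_of_nonneg_of_le_pi q1.le (by linarith [Real.pi_pos]))
  have : (a * Real.sin (ang a b D)) ^ 2 = (b * Real.sin (ang b a D)) ^ 2 := by
    rw [h1, h2]; ring
  exact (pow_left_inj₀ s1 s2 (by norm_num)).1 this

lemma ang_cos_sum {m a b D : ℝ} (hm : Real.sqrt 3 - 1 < m) (ha : 0 < a) (hb : 0 < b)
    (hD : max (a + m * b) (b + m * a) ≤ D) (hc : D < a + b) :
    a * Real.cos (ang a b D) + b * Real.cos (ang b a D) = D := by
  obtain ⟨_, _, h3⟩ := ang_facts hm ha hb hD hc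
  obtain ⟨_, _, h4⟩ := ang_facts hm hb ha (max_swap hD) (by linarith)
  have hD0 := D_pos hm ha hb hD
  rw [h3, h4]
  field_simp
  ring

/-- kite area -/
lemma kite {m a b D : ℝ} (hm : Real.sqrt 3 - 1 < m) (ha : 0 < a) (hb : 0 < b)
    (hD : max (a + m * b) (b + m * a) ≤ D) (hc : D < a + b) :
    D * (a * Real.sin (ang a b D)) = a * b * Real.sin (ang a b D + ang b a D) := by
  have h1 := ang_sines hm ha hb hD hc
  have h2 := ang_cos_sum hm ha hb hD hc
  rw [Real.sin_add]
  calc D * (a * Real.sin (ang a b D))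
      = (a * Real.cos (ang a b D) + b * Real.cos (ang b a D)) * (a * Real.sin (ang a b D)) := by rw [h2]
    _ = a * Real.cos (ang a b D) * (a * Real.sin (ang a b D)) +
        b * Real.cos (ang b a D) * (a * Real.sin (ang a b D)) := by ring
    _ = a * Real.cos (ang a b D) * (b * Real.sin (ang b a D)) +
        b * Real.cos (ang b a D) * (a * Real.sin (ang a b D)) := by rw [h1]
    _ = _ := by ring

/-- larger disk has smaller angle -/
lemma ang_le {m a b D : ℝ} (hm : Real.sqrt 3 - 1 < m) (ha : 0 < a) (hb : 0 < b)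
    (hD : max (a + m * b) (b + m * a) ≤ D) (hc : D < a + b) (hab : b < a) :
    ang a b D < ang b a D := by
  have h1 := ang_sines hm ha hb hD hc
  obtain ⟨p1, p2, _⟩ := ang_facts hm ha hb hD hc
  obtain ⟨q1, q2, _⟩ := ang_facts hm hb ha (max_swap hD) (by linarith)
  by_contra hcon
  push Not at hcon
  have hs : Real.sin (ang b a D) ≤ Real.sin (ang a b D) :=
    Real.sin_le_sin_of_le_of_le_pi_div_two (by linarith [Real.pi_pos]) p2.le hcon
  have hpos : 0 < Real.sin (ang b a D) := Real.sin_pos_of_pos_of_lt_pi q1 (by linarith [Real.pi_pos])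
  nlinarith

lemma half_bound {m a b D : ℝ} (hm : Real.sqrt 3 - 1 < m) (ha : 0 < a) (hb : 0 < b)
    (hD : max (a + m * b) (b + m * a) ≤ D) (hc : D < a + b) (hab : b ≤ a) :
    (1 + m) / 2 ≤ Real.cos ((ang a b D + ang b a D) / 2) := by
  have h1 := ang_sines hm ha hb hD hc
  have h2 := ang_cos_sum hm ha hb hD hc
  obtain ⟨p1, p2, _⟩ := ang_facts hm ha hb hD hc
  obtain ⟨q1, q2, _⟩ := ang_facts hm hb ha (max_swap hD) (by linarith)
  have hle : ang a b D ≤ ang b a D := by
    rcases hab.lt_or_eq with h | h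
    · exact (ang_le hm ha hb hD hc h).le
    · subst h; exact le_rfl
  obtain ⟨hm1, hm2⟩ := mu_facts hm
  have hD1 := (max_le_iff.1 hD).1
  set α := ang a b D with hα
  set β := ang b a D with hβ
  have hsa : 0 < Real.sin α := Real.sin_pos_of_pos_of_lt_pi p1 (by linarith [Real.pi_pos])
  have hsb : 0 < Real.sin β := Real.sin_pos_of_pos_of_lt_pi q1 (by linarith [Real.pi_pos])
  -- sin (α+β) ≥ sin β + m sin α
  have key : Real.sin β + m * Real.sin α ≤ Real.sin (α + β) := by
    rw [Real.sin_add]
    have : (a + m * b) * Real.sin β ≤ (a * Real.cos α + b * Real.cos β) * Real.sin β := by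
      apply mul_le_mul_of_nonneg_right _ hsb.le; rw [h2]; exact hD1
    -- divide by a : b sin β = a sin α
    have e1 : b * Real.sin β = a * Real.sin α := h1.symm
    have : a * (Real.sin β + m * Real.sin α) ≤ a * (Real.sin α * Real.cos β + Real.cos α * Real.sin β) := by
      calc a * (Real.sin β + m * Real.sin α) = a * Real.sin β + m * (a * Real.sin α) := by ring
        _ = a * Real.sin β + m * (b * Real.sin β) := by rw [e1]
        _ = (a + m * b) * Real.sin β := by ring
        _ ≤ (a * Real.cos α + b * Real.cos β) * Real.sin β := this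
        _ = a * Real.cos α * Real.sin β + (b * Real.sin β) * Real.cos β := by ring
        _ = a * Real.cos α * Real.sin β + (a * Real.sin α) * Real.cos β := by rw [e1]
        _ = _ := by ring
    exact le_of_mul_le_mul_left this ha
  -- half angles
  set A := α / 2 with hA
  set B := β / 2 with hB
  have eα : α = 2 * A := by rw [hA]; ring
  have eβ : β = 2 * B := by rw [hB]; ring
  have hA0 : 0 < A := by rw [hA]; linarith
  have hAB : A ≤ B := by rw [hA, hB]; linarith
  have hB1 : B < π / 4 := by rw [hB]; linarith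
  have hsA : 0 < Real.sin A := Real.sin_pos_of_pos_of_lt_pi hA0 (by linarith [Real.pi_pos])
  have hcB : 0 < Real.cos B := Real.cos_pos_of_mem_Ioo ⟨by linarith [Real.pi_pos], by linarith [Real.pi_pos]⟩
  have hcAB : Real.cos B ≤ Real.cos A :=
    Real.cos_le_cos_of_nonneg_of_le_pi hA0.le (by linarith [Real.pi_pos]) hAB
  have k1 : Real.sin (α + β) - Real.sin β = 2 * Real.sin A * Real.cos (A + 2 * B) := by
    have h1' : Real.sin (α + β) = Real.sin ((A + 2 * B) + A) := by
      congr 1; rw [eα, eβ]; ring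
    have h2' : Real.sin β = Real.sin ((A + 2 * B) - A) := by
      congr 1; rw [eβ]; ring
    rw [h1', h2', Real.sin_add, Real.sin_sub]; ring
  have k2 : Real.sin α = 2 * Real.sin A * Real.cos A := by rw [eα, Real.sin_two_mul]
  have k3 : m * Real.cos A ≤ Real.cos (A + 2 * B) := by
    have h5 : 2 * Real.sin A * (m * Real.cos A) ≤ 2 * Real.sin A * Real.cos (A + 2 * B) := by
      rw [← k1]; nlinarith
    exact le_of_mul_le_mul_left h5 (by positivity)
  have k4 : Real.cos (A + 2 * B) + Real.cos A = 2 * Real.cos (A + B) * Real.cos B := by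
    have h1' : Real.cos (A + 2 * B) = Real.cos ((A + B) + B) := by congr 1; ring
    have h2' : Real.cos A = Real.cos ((A + B) - B) := by congr 1; ring
    rw [h1', h2', Real.cos_add, Real.cos_sub]; ring
  have k5 : (1 + m) * Real.cos B ≤ 2 * Real.cos (A + B) * Real.cos B := by
    rw [← k4]; nlinarith
  have k6 : (1 + m) ≤ 2 * Real.cos (A + B) := le_of_mul_le_mul_right k5 hcB
  have e : (α + β) / 2 = A + B := by rw [hA, hB]; ring
  rw [e]; linarith

lemma cMu_eq {m : ℝ} (hm : Real.sqrt 3 - 1 < m) (hm1 : m < 1) :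
    0 < Real.arccos ((1 + m) / 2) ∧ 2 * Real.arccos ((1 + m) / 2) < π ∧
    cMu m * Real.sin (2 * Real.arccos ((1 + m) / 2)) = 2 * Real.arccos ((1 + m) / 2) := by
  obtain ⟨h1, h2⟩ := mu_facts hm
  have hpos : 0 < Real.arccos ((1 + m) / 2) := Real.arccos_pos.2 (by linarith)
  have hlt : Real.arccos ((1 + m) / 2) < π / 2 := Real.arccos_lt_pi_div_two.2 (by linarith)
  refine ⟨hpos, by linarith, ?_⟩
  have hcos : Real.cos (Real.arccos ((1 + m) / 2)) = (1 + m) / 2 := Real.cos_arccos (by linarith) (by linarith)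
  have hsin : Real.sin (Real.arccos ((1 + m) / 2)) = Real.sqrt ((3 + m) * (1 - m)) / 2 := by
    rw [Real.sin_arccos]
    have : 1 - ((1 + m) / 2) ^ 2 = ((3 + m) * (1 - m)) / (2 : ℝ) ^ 2 := by ring
    rw [this, Real.sqrt_div' _ (by norm_num), Real.sqrt_sq (by norm_num)]
  have hs0 : 0 < Real.sqrt ((3 + m) * (1 - m)) := Real.sqrt_pos.2 (by
    apply mul_pos <;> linarith)
  rw [Real.sin_two_mul, hcos, hsin, cMu]
  have : (1 + m) ≠ 0 := by linarith
  field_simp
  ring

/-- the inequality for one pair of disks -/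
theorem pair_ineq_aux {m a b D : ℝ} (hm : Real.sqrt 3 - 1 < m) (hm1 : m < 1) (ha : 0 < a) (hb : 0 < b)
    (hD : max (a + m * b) (b + m * a) ≤ D) (hc : D < a + b) (hab : b ≤ a) :
    a ^ 2 * ang a b D + b ^ 2 * ang b a D ≤ cMu m * (D * (a * Real.sin (ang a b D))) ∧
    (a ^ 2 * ang a b D + b ^ 2 * ang b a D = cMu m * (D * (a * Real.sin (ang a b D))) ↔
      D = a + m * b ∧ D = b + m * a) := by
  obtain ⟨h1, h2⟩ := mu_facts hm
  obtain ⟨p1, p2, p3⟩ := ang_facts hm ha hb hD hc
  obtain ⟨q1, q2, q3⟩ := ang_facts hm hb ha (max_swap hD) (by linarith)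
  obtain ⟨c1, c2, c3⟩ := cMu_eq hm hm1
  have hhalf := half_bound hm ha hb hD hc hab
  rw [kite hm ha hb hD hc]
  set y := 2 * Real.arccos ((1 + m) / 2) with hy
  have hxy : ang a b D + ang b a D ≤ y := by
    have h3 : (ang a b D + ang b a D) / 2 ≤ Real.arccos ((1 + m) / 2) := by
      have : Real.arccos (Real.cos ((ang a b D + ang b a D) / 2)) = (ang a b D + ang b a D) / 2 :=
        Real.arccos_cos (by linarith) (by linarith)
      rw [← this]
      exact Real.arccos_le_arccos hhalf
    rw [hy]; linarith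
  have hsy : 0 < Real.sin y := Real.sin_pos_of_pos_of_lt_pi (by rw [hy]; linarith) c2
  have hcpos : 0 < cMu m := by
    have : 0 < cMu m * Real.sin y := by rw [c3]; rw [hy]; linarith
    exact pos_of_mul_pos_left this hsy.le
  -- claim 2
  have cl2 : ang a b D + ang b a D ≤ cMu m * Real.sin (ang a b D + ang b a D) := by
    rcases hxy.lt_or_eq with h | h
    · have h4 := sin_div_anti (x := ang a b D + ang b a D) (y := y) (by linarith) h c2.le
      have e4 : y * Real.sin (ang a b D + ang b a D) =
          cMu m * Real.sin (ang a b D + ang b a D) * Real.sin y := by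
        calc y * Real.sin (ang a b D + ang b a D)
            = (cMu m * Real.sin y) * Real.sin (ang a b D + ang b a D) := by rw [c3]
          _ = _ := by ring
      rw [e4] at h4
      have : (ang a b D + ang b a D) * Real.sin y < cMu m * Real.sin (ang a b D + ang b a D) * Real.sin y := h4
      exact (lt_of_mul_lt_mul_right this hsy.le).le
    · rw [h, c3]
  have cl2' : ang a b D + ang b a D = cMu m * Real.sin (ang a b D + ang b a D) →
      ang a b D + ang b a D = y := by
    intro he
    rcases hxy.lt_or_eq with h | h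
    · exfalso
      have h4 := sin_div_anti (x := ang a b D + ang b a D) (y := y) (by linarith) h c2.le
      have e4 : y * Real.sin (ang a b D + ang b a D) =
          cMu m * Real.sin (ang a b D + ang b a D) * Real.sin y := by
        calc y * Real.sin (ang a b D + ang b a D)
            = (cMu m * Real.sin y) * Real.sin (ang a b D + ang b a D) := by rw [c3]
          _ = _ := by ring
      rw [e4] at h4
      have : (ang a b D + ang b a D) * Real.sin y < cMu m * Real.sin (ang a b D + ang b a D) * Real.sin y := h4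
      have := lt_of_mul_lt_mul_right this hsy.le
      linarith
    · exact h
  -- claim 1
  have hsines := ang_sines hm ha hb hD hc
  have hsa : 0 < Real.sin (ang a b D) := Real.sin_pos_of_pos_of_lt_pi p1 (by linarith [Real.pi_pos])
  have hsb : 0 < Real.sin (ang b a D) := Real.sin_pos_of_pos_of_lt_pi q1 (by linarith [Real.pi_pos])
  have hab0 : 0 < a * b := mul_pos ha hb
  rcases hab.lt_or_eq with hlt | heq
  · -- strict
    have hang := ang_le hm ha hb hD hc hlt
    have h5 := sin_div_anti p1 hang (by linarith [Real.pi_pos])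
    -- α sin β < β sin α, so a α < b β
    have h6 : a * ang a b D < b * ang b a D := by
      have : (a * ang a b D) * Real.sin (ang b a D) < (b * ang b a D) * Real.sin (ang b a D) := by
        calc (a * ang a b D) * Real.sin (ang b a D) = a * (ang a b D * Real.sin (ang b a D)) := by ring
          _ < a * (ang b a D * Real.sin (ang a b D)) := mul_lt_mul_of_pos_left h5 ha
          _ = (a * Real.sin (ang a b D)) * ang b a D := by ring
          _ = (b * Real.sin (ang b a D)) * ang b a D := by rw [hsines]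
          _ = _ := by ring
      exact lt_of_mul_lt_mul_right this hsb.le
    have h7 : a ^ 2 * ang a b D + b ^ 2 * ang b a D < a * b * (ang a b D + ang b a D) := by
      nlinarith [mul_pos (sub_pos.2 hlt) (sub_pos.2 h6)]
    have h8 : a * b * (ang a b D + ang b a D) ≤ cMu m * (a * b * Real.sin (ang a b D + ang b a D)) := by
      nlinarith
    refine ⟨by linarith, ⟨fun h => by linarith, ?_⟩⟩
    rintro ⟨e1, e2⟩
    exfalso
    nlinarith
  · subst heq
    have h8 : b ^ 2 * ang b b D + b ^ 2 * ang b b D ≤ cMu m * (b * b * Real.sin (ang b b D + ang b b D)) := by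
      nlinarith
    refine ⟨h8, ⟨fun h => ?_, ?_⟩⟩
    · have h9 : ang b b D + ang b b D = cMu m * Real.sin (ang b b D + ang b b D) := by
        have : b * b * (ang b b D + ang b b D) = b * b * (cMu m * Real.sin (ang b b D + ang b b D)) := by
          linarith
        exact mul_left_cancel₀ hab0.ne' this
      have h10 := cl2' h9
      have h11 : ang b b D = Real.arccos ((1 + m) / 2) := by rw [hy] at h10; linarith
      have h12 : Real.cos (ang b b D) = (1 + m) / 2 := by
        rw [h11]; exact Real.cos_arccos (by linarith) (by linarith)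
      rw [p3] at h12
      have hD0 := D_pos hm ha hb hD
      have h13 : D = b + m * b := by
        have e : (D ^ 2 + b ^ 2 - b ^ 2) / (2 * b * D) = D / (2 * b) := by
          field_simp; ring
        rw [e, div_eq_iff (by positivity)] at h12
        linarith
      exact ⟨h13, h13⟩
    · rintro ⟨e1, _⟩
      have hD0 := D_pos hm ha hb hD
      have h12 : Real.cos (ang b b D) = (1 + m) / 2 := by
        rw [p3, e1]
        have : b + m * b ≠ 0 := by rw [← e1]; exact hD0.ne'
        field_simp; ring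
      have h13 : ang b b D = Real.arccos ((1 + m) / 2) := by
        rw [← h12, Real.arccos_cos p1.le (by linarith [Real.pi_pos])]
      have h14 : ang b b D + ang b b D = y := by rw [h13, hy]; ring
      have h15 : ang b b D + ang b b D = cMu m * Real.sin (ang b b D + ang b b D) := by
        rw [h14, c3]
      calc b ^ 2 * ang b b D + b ^ 2 * ang b b D = b * b * (ang b b D + ang b b D) := by ring
        _ = b * b * (cMu m * Real.sin (ang b b D + ang b b D)) := by rw [← h15]
        _ = _ := by ring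

/-- the inequality for one pair of disks, crossing or not -/
theorem pair_ineq {m a b D : ℝ} (hm : Real.sqrt 3 - 1 < m) (hm1 : m < 1) (ha : 0 < a) (hb : 0 < b)
    (hD : max (a + m * b) (b + m * a) ≤ D) (hc : D < a + b) :
    a ^ 2 * ang a b D + b ^ 2 * ang b a D ≤ cMu m * (D * (a * Real.sin (ang a b D))) ∧
    (a ^ 2 * ang a b D + b ^ 2 * ang b a D = cMu m * (D * (a * Real.sin (ang a b D))) ↔
      D = a + m * b ∧ D = b + m * a) := by
  rcases le_total b a with h | h
  · exact pair_ineq_aux hm hm1 ha hb hD hc h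
  · have h1 := pair_ineq_aux hm hm1 hb ha (max_swap hD) (by linarith) h
    rw [← ang_sines hm ha hb hD hc, add_comm] at h1
    exact ⟨h1.1, h1.2.trans and_comm⟩

/-- a pair that does not cross -/
lemma ang_zero {a b D : ℝ} (ha : 0 < a) (hb : 0 < b) (hD : 0 < D) (hc : a + b ≤ D) :
    ang a b D = 0 := by
  apply Real.arccos_of_one_le
  rw [one_le_div (by positivity)]
  nlinarith

end Pool.Agent.R157.Mink
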